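import Pool.Agent.Q318.PSI.Stmts

set_option autoImplicit false

namespace Q318.PSI

open MvPolynomial Equiv

theorem e1_hom : (e1 : R).IsHomogeneous 1 := by
  unfold e1
  exact IsHomogeneous.sum _ _ _ fun i _ => isHomogeneous_X ℂ i

theorem al_hom : (al : R).IsHomogeneous 2 := by
  unfold al
  simpa using e1_hom.pow 2

theorem be_hom : (be : R).IsHomogeneous 2 := by
  unfold be
  exact IsHomogeneous.sum _ _ _ fun i _ => by simpa using (isHomogeneous_X ℂ i).pow 2

theorem g_hom (n : ℕ) : (g n : R).IsHomogeneous (n + 2) := by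
  unfold g
  simpa using e1_hom.pow (n + 2)

theorem assemble (hCov : ∃ n Fv, Cov n Fv) (h1 : TaskGen1) (h2 : TaskGen2)
    (h3 : ∀ n Fv, Cov n Fv → ∀ f : R, J n Fv = symIdeal f → ∀ (i j : Fin 7) (κ : ℂ), i ≠ j →
      rename (swap i j) f ≠ C κ * f) :
    ∃ I : Ideal R, (∃ (f : R) (n : ℕ), f.IsHomogeneous n ∧ I = symIdeal f) ∧
      (∃ (f : R) (n : ℕ), f.IsHomogeneous n ∧ I ^ 2 = symIdeal f) ∧
      ∀ f : R, I = symIdeal f → ∀ (i j : Fin 7) (κ : ℂ), i ≠ j →
        rename (swap i j) f ≠ C κ * f := by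
  obtain ⟨n, Fv, hF⟩ := hCov
  refine ⟨J n Fv, ⟨_, n + 2, ?_, h1 n Fv hF⟩, ⟨_, 2 * (n + 2), ?_, h2 n Fv hF⟩, h3 n Fv hF⟩
  · have e1 := al_hom.mul (hF.hom 0)
    have e2 := be_hom.mul (hF.hom 1)
    rw [add_comm 2 n] at e1 e2
    exact ((g_hom n).add e1).add e2
  · have a0 : (g n ^ 2 : R).IsHomogeneous (2 * (n + 2)) := by
      have := (g_hom n).pow 2
      rwa [mul_comm] at this
    have a1 : (g n * al * Fv 0 : R).IsHomogeneous (2 * (n + 2)) := by
      have := ((g_hom n).mul al_hom).mul (hF.hom 0)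
      convert this using 1
      ring
    have a2 : (g n * be * Fv 1 : R).IsHomogeneous (2 * (n + 2)) := by
      have := ((g_hom n).mul be_hom).mul (hF.hom 1)
      convert this using 1
      ring
    have a3 : (al ^ 2 * (Fv 2 * Fv 3) : R).IsHomogeneous (2 * (n + 2)) := by
      have := (al_hom.pow 2).mul ((hF.hom 2).mul (hF.hom 3))
      convert this using 1
      ring
    have a4 : (al * be * (Fv 4 * Fv 5) : R).IsHomogeneous (2 * (n + 2)) := by
      have := (al_hom.mul be_hom).mul ((hF.hom 4).mul (hF.hom 5))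
      convert this using 1
      ring
    have a5 : (be ^ 2 * (Fv 0 * Fv 1) : R).IsHomogeneous (2 * (n + 2)) := by
      have := (be_hom.pow 2).mul ((hF.hom 0).mul (hF.hom 1))
      convert this using 1
      ring
    exact ((((a0.add a1).add a2).add a3).add a4).add a5

end Q318.PSI
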