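import Pool.Agent.Q318.PSI.Stmts

set_option autoImplicit false

namespace Q318.PSI.OddB

open Q318.PSI

theorem main : TaskOdd := by
  intro Γ F _ _ _ _ _ _ H hH
  classical
  cases nonempty_fintype Γ
  let E : IntermediateField (FixedPoints.subfield Γ F) F :=
    FixedPoints.intermediateField (F := FixedPoints.subfield Γ F) (E := F) H
  have h1 : Module.finrank (FixedPoints.subfield Γ F) F = Fintype.card Γ :=
    FixedPoints.finrank_eq_card Γ F
  have h2 : Module.finrank E F = Fintype.card H := FixedPoints.finrank_eq_card H F
  have h3 : Module.finrank (FixedPoints.subfield Γ F) E * Module.finrank E F =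
    Module.finrank (FixedPoints.subfield Γ F) F := Module.finrank_mul_finrank _ _ _
  have hfd : FiniteDimensional (FixedPoints.subfield Γ F) F := inferInstance
  have hcard : Fintype.card H * H.index = Fintype.card Γ := by
    have := H.card_mul_index
    rwa [Nat.card_eq_fintype_card, Nat.card_eq_fintype_card] at this
  have h4 : Module.finrank (FixedPoints.subfield Γ F) E = H.index := by
    have hpos : 0 < Fintype.card H := Fintype.card_pos
    rw [h1, h2, ← hcard, mul_comm (Fintype.card H)] at h3
    exact Nat.eq_of_mul_eq_mul_right hpos h3
  obtain ⟨θ, hθ⟩ := Field.exists_primitive_element (FixedPoints.subfield Γ F) E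
  have hint : IsIntegral (FixedPoints.subfield Γ F) θ := IsIntegral.of_finite _ _
  refine ⟨(θ : F), minpoly (FixedPoints.subfield Γ F) θ, minpoly.irreducible hint, ?_, ?_, ?_⟩
  · have := IntermediateField.adjoin.finrank hint
    rw [hθ, IntermediateField.finrank_top', h4] at this
    rw [← this]
    exact hH
  · have := minpoly.aeval (FixedPoints.subfield Γ F) θ
    have h5 := congrArg (algebraMap E F) this
    rw [← Polynomial.aeval_algebraMap_apply] at h5
    simpa using h5
  · intro z hz
    have hz' : z ∈ E := fun h => hz h h.2
    have htop : (⟨z, hz'⟩ : E) ∈ IntermediateField.adjoin (FixedPoints.subfield Γ F) {θ} := by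
      rw [hθ]; trivial
    have := (IntermediateField.mem_adjoin_simple_iff _ _).1 htop
    rw [← IntermediateField.mem_toSubalgebra,
      IntermediateField.adjoin_simple_toSubalgebra_of_isAlgebraic hint.isAlgebraic,
      Algebra.adjoin_singleton_eq_range_aeval] at htop
    obtain ⟨f, hf⟩ := htop
    refine ⟨f, ?_⟩
    have h5 := congrArg (algebraMap E F) hf
    have h6 : algebraMap E F (Polynomial.aeval θ f) = z := h5
    rw [← Polynomial.aeval_algebraMap_apply] at h6
    exact h6

end Q318.PSI.OddB
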