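import Pool.Agent.Q318.PSI.Stmts

set_option autoImplicit false

namespace Q318.PSI.TaskClear

open Q318.PSI MvPolynomial Equiv

theorem main : TaskClear := by
  classical
  intro inst hact y hy hyG hsum hsq
  obtain ⟨b, hb⟩ := IsLocalization.exist_integer_multiples_of_finite (nonZeroDivisors R) y
  set a := algebraMap R (FractionRing R) with ha
  have hinj : Function.Injective a := IsFractionRing.injective R (FractionRing R)
  let N : R := ∏ σ : G, rename σ (b : R)
  have hb0 : (b : R) ≠ 0 := nonZeroDivisors.coe_ne_zero b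
  have hN0 : N ≠ 0 := Finset.prod_ne_zero_iff.2 fun σ _ h =>
    hb0 (rename_injective _ σ.injective (by rw [h, map_zero]))
  have hNσ : ∀ τ : G, rename τ N = N := by
    intro τ
    simp only [N, map_prod, rename_rename]
    exact Fintype.prod_equiv (Equiv.mulLeft τ) _ _ fun σ => rfl
  have hdvd : (b : R) ∣ N := by
    have h1 := Finset.dvd_prod_of_mem (fun σ : G => rename σ (b : R)) (Finset.mem_univ (1 : G))
    have h2 : rename (1 : G) (b : R) = b := by
      rw [Equiv.Perm.coe_one, rename_id_apply]
    simpa only [h2] using h1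
  obtain ⟨N', hN'⟩ := hdvd
  have hY : ∀ i, ∃ Y : R, a Y = a N * y i := by
    intro i
    obtain ⟨Y, hY⟩ := hb i
    refine ⟨N' * Y, ?_⟩
    rw [map_mul, hY, hN', map_mul, Algebra.smul_def]
    show a N' * (a (b : R) * y i) = a (b : R) * a N' * y i
    ring
  choose Y hY using hY
  have haN : a N ≠ 0 := fun h => hN0 (hinj (by rw [h, map_zero]))
  refine ⟨Y, fun h => hy ?_, fun σ i => hinj ?_, hinj ?_, hinj ?_⟩
  · funext i
    have h1 := hY i
    rw [h, Pi.zero_apply, map_zero] at h1
    exact (mul_eq_zero.1 h1.symm).resolve_left haN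
  · rw [← hact, hY, hY, smul_mul', hact, hNσ, hyG]
  · rw [map_sum, map_zero, Finset.sum_congr rfl fun i _ => hY i, ← Finset.mul_sum, hsum, mul_zero]
  · rw [map_sum, map_zero, Finset.sum_congr rfl fun i _ => by rw [map_pow, hY, mul_pow],
      ← Finset.mul_sum, hsq, mul_zero]

end Q318.PSI.TaskClear
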