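import Mathlib

/-! MP_e01960_al: blueprint. Prove `theorem main (hypotheses allowed by the task) : TaskX` in
`Pool/Agent/Q318/PSI/TaskX.lean`, namespace `Q318.PSI.TaskX` (import Pool.Agent.Q318.PSI.Stmts). -/

set_option autoImplicit false

namespace Q318.PSI

open MvPolynomial Equiv

abbrev G := Equiv.Perm (Fin 7)
abbrev R := MvPolynomial (Fin 7) ℂ

/-- the ideal generated by the orbit of `f` -/
noncomputable def symIdeal (f : R) : Ideal R := Ideal.span (Set.range fun σ : G => rename σ f)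

/-- an isotropic covariant: polynomials `F_i` of degree `n` -/
structure Cov (n : ℕ) (Fv : Fin 7 → R) : Prop where
  hom : ∀ i, (Fv i).IsHomogeneous n
  nz : ∃ i, Fv i ≠ 0
  act : ∀ (σ : G) i, rename σ (Fv i) = ((Equiv.Perm.sign σ : ℤ) : R) * Fv (σ i)
  sum : ∑ i, Fv i = 0
  sq : ∑ i, Fv i ^ 2 = 0

noncomputable def e1 : R := ∑ i, X i
noncomputable def al : R := e1 ^ 2
noncomputable def be : R := ∑ i, X i ^ 2
noncomputable def g (n : ℕ) : R := e1 ^ (n + 2)

/-- the ideal `I` -/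
noncomputable def J (n : ℕ) (Fv : Fin 7 → R) : Ideal R :=
  Ideal.span ({g n} ∪ Set.range (fun i => al * Fv i) ∪ Set.range (fun i => be * Fv i))

/-! ### the isotropic covariant -/

/-- Springer's theorem, polynomial form. Strong induction on `p.natDegree`: take an irreducible factor `p'` of odd
degree; reduce `f` modulo `p'`, divide by the gcd of the `f i`; if the form is anisotropic, the degree of
`∑ A i j f_i f_j` is `2 max deg f_i < 2 deg p'`, so the quotient by `p'` has smaller odd degree, and the `f i` are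
coprime. -/
def TaskSpringer : Prop := ∀ (K : Type) [Field K] (m : ℕ) (A : Fin m → Fin m → K) (p : Polynomial K)
  (f : Fin m → Polynomial K), Odd p.natDegree →
  (∀ p' : Polynomial K, Irreducible p' → p' ∣ p → ∃ i, ¬ p' ∣ f i) →
  p ∣ ∑ i, ∑ j, Polynomial.C (A i j) * f i * f j →
  ∃ c : Fin m → K, c ≠ 0 ∧ ∑ i, ∑ j, A i j * c i * c j = 0

/-- Galois: `E = FixedPoints.intermediateField H` over `K = FixedPoints.subfield G F`; `[E : K] = |G|/|H|` is odd
(`FixedPoints.finrank_eq_card`, `Module.finrank_mul_finrank`); primitive element `θ` of `E/K`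
(`Field.exists_primitive_element`), `p` its minimal polynomial. -/
def TaskOdd : Prop := ∀ (Γ F : Type) [Group Γ] [Finite Γ] [Field F] [CharZero F] [MulSemiringAction Γ F]
  [FaithfulSMul Γ F] (H : Subgroup Γ), Odd H.index →
  ∃ (θ : F) (p : Polynomial (FixedPoints.subfield Γ F)), Irreducible p ∧ Odd p.natDegree ∧
    Polynomial.aeval θ p = 0 ∧
    ∀ z : F, (∀ h ∈ H, h • z = z) → ∃ f : Polynomial (FixedPoints.subfield Γ F), Polynomial.aeval θ f = z

/-- the stabiliser of the blocks `{0,1,2,3}`, `{4,5}`, `{6}` has index 105; hint: `H ≃ S₄ × S₂`, or it contains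
enough elements and the index divides; e.g. orbit-stabiliser for the action on `Fin 7 → Fin 3`, `decide` on small
sets only -/
def blk (i : Fin 7) : Fin 3 := if i.val ≤ 3 then 0 else if i.val ≤ 5 then 1 else 2
def TaskIndex : Prop := ∃ H : Subgroup G, Odd H.index ∧ ∀ σ ∈ H, ∀ i, blk (σ i) = blk i

/-- the trace-zero basis `v k i = x_i^(k+1) - (∑_j x_j^(k+1))/7`, `k < 6` -/
noncomputable def vv {F : Type} [Field F] (x : Fin 7 → F) (k : Fin 6) (i : Fin 7) : F :=
  x i ^ (k.val + 1) - (∑ j, x j ^ (k.val + 1)) / 7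

/-- coordinates in the basis `vv`: Vandermonde; uniqueness gives the invariance under `H`. -/
def TaskCoord : Prop := ∀ (F : Type) [Field F] [CharZero F] (x : Fin 7 → F), Function.Injective x →
  (∀ c : Fin 6 → F, (∀ i, ∑ k, c k * vv x k i = 0) → c = 0) ∧
  (∀ y : Fin 7 → F, ∑ i, y i = 0 → ∃ c : Fin 6 → F, ∀ i, y i = ∑ k, c k * vv x k i)

/-- descent of the constant isotropic vector `(3,3,3,3,b,b,c)`, `b = -4 + s`, `c = -4 - 2 s`, `s² = -14`:
coordinates `c k ∈ F` of it are `H`-invariant (`σ • y i = y (σ i)` for `σ ∈ H` and uniqueness), so `c k = f_k(θ)`;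
`p` divides `∑ A k l f_k f_l`, `A k l = ∑ i, v k i v l i ∈ K`; Springer gives coordinates in `K`. -/
def TaskDescent : Prop := TaskSpringer → TaskOdd → TaskIndex → TaskCoord →
  ∀ (F : Type) [Field F] [CharZero F] [MulSemiringAction G F] [FaithfulSMul G F] (x : Fin 7 → F) (s : F),
    Function.Injective x → (∀ (σ : G) i, σ • x i = x (σ i)) → (∀ σ : G, σ • s = s) → s ^ 2 = -14 →
    ∃ y : Fin 7 → F, y ≠ 0 ∧ (∀ (σ : G) i, σ • y i = y (σ i)) ∧ ∑ i, y i = 0 ∧ ∑ i, y i ^ 2 = 0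

/-- the action of `G` on the fraction field -/
def TaskFrac : Prop := ∃ _ : MulSemiringAction G (FractionRing R),
  (∀ (σ : G) (p : R), σ • (algebraMap R (FractionRing R) p) = algebraMap R (FractionRing R) (rename σ p)) ∧
  FaithfulSMul G (FractionRing R)

/-- clear denominators: common denominator `D`, multiply by `∏ σ, rename σ D` -/
def TaskClear : Prop := ∀ (_ : MulSemiringAction G (FractionRing R)),
  (∀ (σ : G) (p : R), σ • (algebraMap R (FractionRing R) p) = algebraMap R (FractionRing R) (rename σ p)) →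
  ∀ y : Fin 7 → FractionRing R, y ≠ 0 → (∀ (σ : G) i, σ • y i = y (σ i)) → ∑ i, y i = 0 → ∑ i, y i ^ 2 = 0 →
  ∃ Y : Fin 7 → R, Y ≠ 0 ∧ (∀ (σ : G) i, rename σ (Y i) = Y (σ i)) ∧ ∑ i, Y i = 0 ∧ ∑ i, Y i ^ 2 = 0

/-- top homogeneous components: `n = max totalDegree (Y i)` -/
def TaskHomog : Prop := ∀ Y : Fin 7 → R, Y ≠ 0 → (∀ (σ : G) i, rename σ (Y i) = Y (σ i)) →
  ∑ i, Y i = 0 → ∑ i, Y i ^ 2 = 0 →
  ∃ (n : ℕ) (Z : Fin 7 → R), Z ≠ 0 ∧ (∀ i, (Z i).IsHomogeneous n) ∧
    (∀ (σ : G) i, rename σ (Z i) = Z (σ i)) ∧ ∑ i, Z i = 0 ∧ ∑ i, Z i ^ 2 = 0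

/-- the Vandermonde determinant -/
def TaskDelta : Prop := ∃ D : R, D ≠ 0 ∧ D.IsHomogeneous 21 ∧
  ∀ σ : G, rename σ D = ((Equiv.Perm.sign σ : ℤ) : R) * D

/-- assembly of the covariant -/
def TaskCov : Prop := TaskSpringer → TaskOdd → TaskIndex → TaskCoord → TaskDescent → TaskFrac → TaskClear →
  TaskHomog → TaskDelta → ∃ n Fv, Cov n Fv

/-! ### the ideal -/

/-- `W` = the orbit span (ideal) of `f = g + α F₀ + β F₁`: the sum over `G` gives `g`; then `α F_i + β F_j ∈ W` for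
`i ≠ j` (a permutation with `0 ↦ i`, `1 ↦ j`), `α (F_i - F_k) ∈ W`, and `∑ F = 0` gives `α F_i ∈ W`. -/
def TaskGen1 : Prop := ∀ n Fv, Cov n Fv → J n Fv = symIdeal (g n + al * Fv 0 + be * Fv 1)

/-- `h = g² + gα F₀ + gβ F₁ + α² F₂F₃ + αβ F₄F₅ + β² F₀F₁`. `(1 - (2 3)) h = 2 g (α F₀ + β F₁)`, as in TaskGen1 all
`gα F_i`, `gβ F_i`; the sum over `G` of the rest gives `g²` (as `∑_{i<j} F_i F_j = 0`); then
`α² u_P + αβ u_Q + β² u_S` for disjoint pairs `P, Q, S` (`u_{ij} = F_i F_j`), differences `α² (u_ij - u_ik)`, and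
`∑ u = 0` gives `α² u_ij`, `i ≠ j`; finally `F_i² = -∑_{j ≠ i} F_i F_j`. -/
def TaskGen2 : Prop := ∀ n Fv, Cov n Fv → J n Fv ^ 2 =
  symIdeal (g n ^ 2 + g n * al * Fv 0 + g n * be * Fv 1 + al ^ 2 * (Fv 2 * Fv 3) + al * be * (Fv 4 * Fv 5) +
    be ^ 2 * (Fv 0 * Fv 1))

/-- degree parts of elements of an ideal generated in degree `m` -/
def TaskGraded1 : Prop := ∀ (m : ℕ) (S : Set R), (∀ s ∈ S, s.IsHomogeneous m) → ∀ p ∈ Ideal.span S,
  homogeneousComponent m p ∈ Submodule.span ℂ S ∧ ∀ j < m, homogeneousComponent j p = 0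

/-- lowest parts: `(r * σf)_m = r(0) σ(f_m)` -/
def TaskGraded2 : Prop := ∀ (m : ℕ) (f : R), (∀ j < m, homogeneousComponent j f = 0) → ∀ p ∈ symIdeal f,
  homogeneousComponent m p ∈
    Submodule.span ℂ (Set.range fun σ : G => rename σ (homogeneousComponent m f))

/-- independence. If `c g + α A + β B = 0`, `A = ∑ a_i F_i`, `B = ∑ b_i F_i`: sum over `G` gives `c = 0`; add the
image under the transposition `(i j)`: `((a_i - a_j) α + (b_i - b_j) β)(F_i - F_j) = 0`, `F_i ≠ F_j`, and `α, β` are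
linearly independent; so `a`, `b` are constant and `A = B = 0`. -/
def TaskIndep : Prop := ∀ n Fv, Cov n Fv → ∀ (c : ℂ) (a b : Fin 7 → ℂ),
  C c * g n + al * (∑ i, C (a i) * Fv i) + be * (∑ i, C (b i) * Fv i) = 0 →
  c = 0 ∧ (∀ i j, a i = a j) ∧ (∀ i j, b i = b j)

/-- Linear algebra. `W` = span of the orbit of `v = c g + α A + β B`, `τ v = κ v`, `κ = ±1`. If `κ = 1`:
`2 v = v + τ v = 2 c g + γ (F_i - F_j)`, `γ = (a_i - a_j) α + (b_i - b_j) β`, so `W ⊆ ℂ g + γ span F`, which does not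
contain both `α F_0` and `β F_0` (TaskIndep). If `κ = -1`: `c = 0`, so `g ∉ W`. -/
def TaskLin : Prop := TaskIndep → ∀ n Fv, Cov n Fv → ∀ (c : ℂ) (a b : Fin 7 → ℂ) (v : R),
  v = C c * g n + al * (∑ i, C (a i) * Fv i) + be * (∑ i, C (b i) * Fv i) →
  ∀ (i j : Fin 7) (κ : ℂ), i ≠ j → rename (swap i j) v = C κ * v →
  ¬ (g n ∈ Submodule.span ℂ (Set.range fun σ : G => rename σ v) ∧
    (∀ k, al * Fv k ∈ Submodule.span ℂ (Set.range fun σ : G => rename σ v)) ∧
    (∀ k, be * Fv k ∈ Submodule.span ℂ (Set.range fun σ : G => rename σ v)))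

/-- assembly: no generator is semi-invariant under a transposition; take the component of degree `n + 2` of `f` -/
def TaskNo : Prop := TaskGraded1 → TaskGraded2 → TaskIndep → TaskLin → ∀ n Fv, Cov n Fv →
  ∀ f : R, J n Fv = symIdeal f → ∀ (i j : Fin 7) (κ : ℂ), i ≠ j → rename (swap i j) f ≠ C κ * f

end Q318.PSI
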