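import Mathlib
import Pool.Agent.Q318.PSI.Stmts

set_option autoImplicit false

namespace Q318.PSI.TaskCoord

open Q318.PSI MvPolynomial Equiv

theorem expand {F : Type} [Field F] (x : Fin 7 → F) (c : Fin 6 → F) (i : Fin 7) :
    ∑ k, c k * vv x k i =
      ∑ k : Fin 6, x i ^ (k.val + 1) * c k - ∑ k : Fin 6, c k * ((∑ j, x j ^ (k.val + 1)) / 7) := by
  simp only [vv, mul_sub, Finset.sum_sub_distrib]
  congr 1
  exact Finset.sum_congr rfl fun k _ => mul_comm _ _

theorem vand {F : Type} [Field F] (x : Fin 7 → F) (w : Fin 7 → F) (i : Fin 7) :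
    (Matrix.vandermonde x).mulVec w i = w 0 + ∑ k : Fin 6, x i ^ (k.val + 1) * w k.succ := by
  simp only [Matrix.mulVec, dotProduct, Matrix.vandermonde_apply]
  rw [Fin.sum_univ_succ]
  simp only [Fin.val_zero, pow_zero, one_mul, Fin.val_succ]

theorem main : TaskCoord := by
  intro F _ _ x hx
  have hdet : (Matrix.vandermonde x).det ≠ 0 := Matrix.det_vandermonde_ne_zero_iff.2 hx
  constructor
  · intro c hc
    set m : F := ∑ k : Fin 6, c k * ((∑ j, x j ^ (k.val + 1)) / 7) with hm
    have h1 : (Matrix.vandermonde x).mulVec (Fin.cons (-m) c : Fin 7 → F) = 0 := by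
      funext i
      rw [vand]
      have h2 := hc i
      rw [expand, ← hm] at h2
      simp only [Fin.cons_zero, Fin.cons_succ, Pi.zero_apply]
      rw [← h2]
      ring
    have h3 := Matrix.eq_zero_of_mulVec_eq_zero hdet h1
    funext k
    have h4 := congrFun h3 k.succ
    simpa using h4
  · intro y hy
    set w : Fin 7 → F := ((Matrix.vandermonde x)⁻¹).mulVec y with hw
    have hwy : (Matrix.vandermonde x).mulVec w = y := by
      rw [hw, Matrix.mulVec_mulVec, Matrix.mul_nonsing_inv _ (isUnit_iff_ne_zero.2 hdet),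
        Matrix.one_mulVec]
    have hi : ∀ i, y i = w 0 + ∑ k : Fin 6, x i ^ (k.val + 1) * w k.succ := by
      intro i
      rw [← vand, hwy]
    have h7 : (7 : F) ≠ 0 := by norm_num
    have hsum : (7 : F) * w 0 + ∑ k : Fin 6, (∑ j, x j ^ (k.val + 1)) * w k.succ = 0 := by
      rw [← hy]
      simp only [hi, Finset.sum_add_distrib, Finset.sum_const, Finset.card_univ, Fintype.card_fin,
        nsmul_eq_mul]
      rw [Finset.sum_comm]
      simp only [Finset.sum_mul]
      norm_num
    refine ⟨fun k => w k.succ, fun i => ?_⟩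
    rw [expand, hi i]
    have h0 : w 0 = - ∑ k : Fin 6, w k.succ * ((∑ j, x j ^ (k.val + 1)) / 7) := by
      have e : ∑ k : Fin 6, (∑ j, x j ^ (k.val + 1)) * w k.succ =
          7 * ∑ k : Fin 6, w k.succ * ((∑ j, x j ^ (k.val + 1)) / 7) := by
        rw [Finset.mul_sum]
        refine Finset.sum_congr rfl fun k _ => ?_
        field_simp
      rw [e, ← mul_add] at hsum
      rcases mul_eq_zero.1 hsum with h | h
      · exact absurd h h7
      · exact eq_neg_of_add_eq_zero_left h
    rw [h0]
    ring

end Q318.PSI.TaskCoord
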