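import Pool.Agent.Q318.PSI.Stmts

set_option autoImplicit false

namespace Q318.PSI.TaskCov

open Q318.PSI MvPolynomial Equiv

theorem main : TaskCov := by
  intro hSpr hOdd hInd hCoord hDes hFrac hClear hHomog hDelta
  obtain ⟨inst, hact, hfaith⟩ := hFrac
  let _ := inst
  have := hfaith
  have hinj : Function.Injective (algebraMap R (FractionRing R)) := IsFractionRing.injective R _
  have : CharZero (FractionRing R) := by
    have : CharZero R := inferInstance
    exact charZero_of_injective_algebraMap hinj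
  let s : ℂ := Complex.I * (Real.sqrt 14 : ℝ)
  have hs : s ^ 2 = -14 := by
    simp only [s, mul_pow, Complex.I_sq]
    rw [← Complex.ofReal_pow, Real.sq_sqrt (by norm_num)]
    norm_num
  obtain ⟨y, hy0, hy1, hy2, hy3⟩ := hDes hSpr hOdd hInd hCoord (FractionRing R)
    (fun i => algebraMap R (FractionRing R) (X i)) (algebraMap R (FractionRing R) (C s))
    (fun i j hij => X_injective (hinj hij))
    (fun σ i => by rw [hact, rename_X])
    (fun σ => by rw [hact, rename_C])
    (by rw [← map_pow, ← map_pow, hs, map_neg, map_neg, map_ofNat, map_ofNat])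
  obtain ⟨Y, hY0, hY1, hY2, hY3⟩ := hClear inst hact y hy0 hy1 hy2 hy3
  obtain ⟨n, Z, hZ0, hZn, hZ1, hZ2, hZ3⟩ := hHomog Y hY0 hY1 hY2 hY3
  obtain ⟨D, hD0, hD1, hD2⟩ := hDelta
  refine ⟨21 + n, fun i => D * Z i, ?_, ?_, ?_, ?_, ?_⟩
  · intro i
    exact hD1.mul (hZn i)
  · by_contra hcon
    push Not at hcon
    apply hZ0
    funext i
    have := hcon i
    rcases mul_eq_zero.1 this with h | h
    · exact absurd h hD0
    · exact h
  · intro σ i
    show rename σ (D * Z i) = _
    rw [map_mul, hD2, hZ1]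
    ring
  · rw [← Finset.mul_sum, hZ2, mul_zero]
  · rw [Finset.sum_congr rfl fun i _ => mul_pow D (Z i) 2, ← Finset.mul_sum, hZ3, mul_zero]

end Q318.PSI.TaskCov
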