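import Pool.Agent.Q318.PSI.Stmts

/-! The Vandermonde determinant. -/

set_option autoImplicit false

namespace Q318.PSI.TaskDelta

open Q318.PSI MvPolynomial Equiv

theorem main : TaskDelta := by
  refine ⟨(Matrix.vandermonde (fun i : Fin 7 => (X i : R))).det, ?_, ?_, ?_⟩
  · rw [Matrix.det_vandermonde_ne_zero_iff]
    exact X_injective
  · rw [Matrix.det_vandermonde]
    have h : (∑ i : Fin 7, ∑ j ∈ Finset.Ioi i, 1) = 21 := by decide
    rw [← h]
    refine IsHomogeneous.prod _ _ _ fun i _ => IsHomogeneous.prod _ _ _ fun j _ => ?_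
    exact (isHomogeneous_X ℂ j).sub (isHomogeneous_X ℂ i)
  · intro σ
    have h1 : rename σ (Matrix.vandermonde (fun i : Fin 7 => (X i : R))).det =
        ((Matrix.vandermonde (fun i : Fin 7 => (X i : R))).submatrix σ id).det := by
      rw [AlgHom.map_det]
      congr 1
      ext1 i j
      simp [Matrix.vandermonde_apply]
    rw [h1, Matrix.det_permute]

end Q318.PSI.TaskDelta
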