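import Pool.Agent.Q318.PSI.Stmts

set_option autoImplicit false

namespace Q318.PSI.TaskDescent

open Q318.PSI MvPolynomial Equiv

section

variable {F : Type} [Field F] [CharZero F] [MulSemiringAction G F]

theorem smul_vv (x : Fin 7 → F) (hx : ∀ (σ : G) i, σ • x i = x (σ i)) (σ : G) (k : Fin 6)
    (i : Fin 7) : σ • vv x k i = vv x k (σ i) := by
  obtain ⟨φ, hφ⟩ : ∃ φ : F →+* F, ∀ z, φ z = σ • z := ⟨MulSemiringAction.toRingHom G F σ, fun _ => rfl⟩
  unfold vv
  rw [← hφ, map_sub, map_pow, map_div₀, map_sum, map_ofNat, hφ, hx]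
  congr 2
  have h1 : ∀ j, φ (x j ^ (k.val + 1)) = x (σ j) ^ (k.val + 1) := by
    intro j
    rw [map_pow, hφ, hx]
  simp only [h1]
  exact Equiv.sum_comp σ (fun j => x j ^ (k.val + 1))

omit [MulSemiringAction G F] in
theorem sum_vv (x : Fin 7 → F) (k : Fin 6) : ∑ i, vv x k i = 0 := by
  unfold vv
  rw [Finset.sum_sub_distrib, Finset.sum_const, Finset.card_univ, Fintype.card_fin, nsmul_eq_mul]
  have h7 : ((7 : ℕ) : F) ≠ 0 := by norm_num
  push_cast
  field_simp
  ring

omit [CharZero F] [MulSemiringAction G F] in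
theorem quad (c : Fin 6 → F) (v : Fin 6 → Fin 7 → F) :
    ∑ i, (∑ k, c k * v k i) ^ 2 = ∑ k, ∑ l, (∑ i, v k i * v l i) * c k * c l := by
  have h1 : ∀ i, (∑ k, c k * v k i) ^ 2 = ∑ k, ∑ l, (v k i * v l i) * c k * c l := by
    intro i
    rw [sq, Finset.sum_mul_sum]
    refine Finset.sum_congr rfl fun k _ => Finset.sum_congr rfl fun l _ => ?_
    ring
  simp only [h1]
  rw [Finset.sum_comm]
  refine Finset.sum_congr rfl fun k _ => ?_
  rw [Finset.sum_comm]
  refine Finset.sum_congr rfl fun l _ => ?_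
  rw [Finset.sum_mul, Finset.sum_mul]

end

theorem main : TaskDescent := by
  intro hSp hOdd hIdx hCoord F _ _ _ _ x s hx hxσ hs hs2
  obtain ⟨H, hH1, hH2⟩ := hIdx
  obtain ⟨θ, p, hp, hpo, hpθ, hall⟩ := hOdd G F H hH1
  obtain ⟨hun, hex⟩ := hCoord F x hx
  let w : Fin 3 → F := ![3, -4 + s, -4 - 2 * s]
  let u : Fin 7 → F := fun i => w (blk i)
  have hu1 : ∑ i, u i = 0 := by
    simp [Fin.sum_univ_seven, u, w, blk]
    ring
  have hu2 : ∑ i, u i ^ 2 = 0 := by
    simp [Fin.sum_univ_seven, u, w, blk]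
    linear_combination 6 * hs2
  have hw : ∀ (σ : G) j, σ • w j = w j := by
    intro σ j
    obtain ⟨φ, hφ⟩ : ∃ φ : F →+* F, ∀ z, φ z = σ • z :=
      ⟨MulSemiringAction.toRingHom G F σ, fun _ => rfl⟩
    have hφs : φ s = s := by rw [hφ, hs]
    have h2 : φ 2 = 2 := map_ofNat φ 2
    have h3 : φ 3 = 3 := map_ofNat φ 3
    have h4 : φ 4 = 4 := map_ofNat φ 4
    rw [← hφ]
    fin_cases j
    · simp [w, h3]
    · simp [w, hφs, h4]
    · simp [w, hφs, h4, h2]
  obtain ⟨c, hc⟩ := hex u hu1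
  -- invariance of the coordinates
  have hinv : ∀ k, ∀ h ∈ H, h • c k = c k := by
    intro k h hh
    have h1 : ∀ j, ∑ k, (h • c k - c k) * vv x k j = 0 := by
      intro j
      obtain ⟨i, rfl⟩ := h.surjective j
      have h2 : h • u i = u (h i) := by
        change h • w (blk i) = w (blk (h i))
        rw [hw, hH2 h hh i]
      have h3 : h • u i = ∑ k, (h • c k) * vv x k (h i) := by
        rw [hc i, Finset.smul_sum]
        refine Finset.sum_congr rfl fun k _ => ?_
        rw [smul_mul', smul_vv x hxσ]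
      simp only [sub_mul, Finset.sum_sub_distrib]
      rw [← h3, ← hc (h i), h2, sub_self]
    exact sub_eq_zero.1 (congrFun (hun _ h1) k)
  choose f hf using fun k => hall (c k) (hinv k)
  -- a nonzero coordinate
  have hc0 : ∃ k, c k ≠ 0 := by
    by_contra hcon
    push Not at hcon
    have h1 := hc 0
    simp only [hcon, zero_mul, Finset.sum_const_zero] at h1
    have h2 : u 0 = 3 := rfl
    rw [h2] at h1
    exact three_ne_zero h1
  obtain ⟨k0, hk0⟩ := hc0
  have hnd : ¬ p ∣ f k0 := by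
    rintro ⟨q, hq⟩
    apply hk0
    rw [← hf k0, hq, map_mul, hpθ, zero_mul]
  -- the form
  have hA : ∀ k l, ∑ i, vv x k i * vv x l i ∈ FixedPoints.subfield G F := by
    intro k l σ
    rw [Finset.smul_sum]
    have h1 : ∀ i, σ • (vv x k i * vv x l i) = vv x k (σ i) * vv x l (σ i) := by
      intro i
      rw [smul_mul', smul_vv x hxσ, smul_vv x hxσ]
    simp only [h1]
    exact Equiv.sum_comp σ (fun i => vv x k i * vv x l i)
  let A : Fin 6 → Fin 6 → FixedPoints.subfield G F := fun k l => ⟨_, hA k l⟩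
  have hdvd : p ∣ ∑ k, ∑ l, Polynomial.C (A k l) * f k * f l := by
    have h0 : Polynomial.aeval θ (∑ k, ∑ l, Polynomial.C (A k l) * f k * f l) = 0 := by
      simp only [map_sum, map_mul, Polynomial.aeval_C, hf]
      have h1 := quad c (vv x)
      have h2 : ∑ i, (∑ k, c k * vv x k i) ^ 2 = 0 := by
        rw [← hu2]
        refine Finset.sum_congr rfl fun i _ => ?_
        rw [← hc i]
      rw [h2] at h1
      exact h1.symm
    have hint : IsIntegral (FixedPoints.subfield G F) θ :=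
      isAlgebraic_iff_isIntegral.1 ⟨p, hp.ne_zero, hpθ⟩
    have h3 := minpoly.dvd (FixedPoints.subfield G F) θ hpθ
    exact ((minpoly.irreducible hint).dvd_symm hp h3).trans
      (minpoly.dvd (FixedPoints.subfield G F) θ h0)
  obtain ⟨c', hc'0, hc'⟩ := hSp (FixedPoints.subfield G F) 6 A p f hpo
    (fun p' hp' hpp => ⟨k0, fun h => hnd ((hp'.dvd_symm hp hpp).trans h)⟩) hdvd
  have hfix : ∀ (σ : G) k, σ • (c' k : F) = c' k := fun σ k => (c' k).2 σ
  refine ⟨fun i => ∑ k, (c' k : F) * vv x k i, fun h0 => hc'0 ?_, fun σ i => ?_, ?_, ?_⟩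
  · have h1 := hun (fun k => (c' k : F)) (fun i => congrFun h0 i)
    funext k
    exact Subtype.ext (congrFun h1 k)
  · rw [Finset.smul_sum]
    refine Finset.sum_congr rfl fun k _ => ?_
    rw [smul_mul', smul_vv x hxσ, hfix]
  · rw [Finset.sum_comm]
    refine Finset.sum_eq_zero fun k _ => ?_
    rw [← Finset.mul_sum, sum_vv, mul_zero]
  · rw [quad (fun k => (c' k : F)) (vv x)]
    have h1 := congrArg (fun z : FixedPoints.subfield G F => (z : F)) hc'
    simp only [A] at h1
    push_cast at h1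
    exact h1

end Q318.PSI.TaskDescent
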