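import Pool.Agent.Q318.PSI.Stmts

set_option autoImplicit false

namespace Q318.PSI.TaskFrac

open Q318.PSI MvPolynomial Equiv

/-- the automorphisms of the polynomial ring -/
noncomputable def act : G →* (R ≃ₐ[ℂ] R) where
  toFun σ := renameEquiv ℂ σ
  map_one' := by
    ext1 p
    change rename (id : Fin 7 → Fin 7) p = p
    rw [rename_id_apply]
  map_mul' σ τ := by
    ext1 p
    change rename (⇑(σ * τ)) p = rename (⇑σ) (rename (⇑τ) p)
    rw [rename_rename]
    rfl

/-- the automorphisms of the fraction field -/
noncomputable def actF : G →* (FractionRing R ≃ₐ[ℂ] FractionRing R) :=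
  (IsFractionRing.fieldEquivOfAlgEquivHom (A := ℂ) (B := R) ℂ (FractionRing R)).comp act

theorem actF_apply (σ : G) (p : R) :
    actF σ (algebraMap R (FractionRing R) p) = algebraMap R (FractionRing R) (rename σ p) := by
  simp [actF, act]

theorem main : Q318.PSI.TaskFrac := by
  refine ⟨MulSemiringAction.compHom (FractionRing R) actF, ?_, ?_⟩
  · intro σ p
    exact actF_apply σ p
  · let _ := MulSemiringAction.compHom (FractionRing R) actF
    constructor
    intro σ τ h
    ext i
    have h1 := h (algebraMap R (FractionRing R) (X i))
    have h2 : algebraMap R (FractionRing R) (rename σ (X i)) =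
        algebraMap R (FractionRing R) (rename τ (X i)) := by
      rw [← actF_apply, ← actF_apply]
      exact h1
    have h3 := IsFractionRing.injective R (FractionRing R) h2
    rw [rename_X, rename_X] at h3
    exact congrArg Fin.val (X_injective h3)

end Q318.PSI.TaskFrac
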