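import Pool.Agent.Q318.PSI.Stmts

set_option autoImplicit false

namespace Q318.PSI.TaskGen1

open Q318.PSI MvPolynomial Equiv

theorem e1_inv (σ : G) : rename σ e1 = e1 := by
  unfold e1
  rw [map_sum]
  simp only [rename_X]
  exact Equiv.sum_comp σ (fun i => (X i : R))

theorem al_inv (σ : G) : rename σ al = al := by
  unfold al
  rw [map_pow, e1_inv]

theorem be_inv (σ : G) : rename σ be = be := by
  unfold be
  rw [map_sum]
  simp only [map_pow, rename_X]
  exact Equiv.sum_comp σ (fun i => (X i : R) ^ 2)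

theorem g_inv (n : ℕ) (σ : G) : rename σ (g n) = g n := by
  unfold g
  rw [map_pow, e1_inv]

theorem exists_perm (i j : Fin 7) (hij : i ≠ j) : ∃ σ : G, σ 0 = i ∧ σ 1 = j := by
  refine ⟨swap (swap 0 i 1) j * swap 0 i, ?_, ?_⟩
  · rw [Perm.mul_apply, swap_apply_left]
    apply swap_apply_of_ne_of_ne
    · intro h
      have h2 : swap (0 : Fin 7) i 0 = swap 0 i 1 := by rw [swap_apply_left]; exact h
      exact absurd ((swap (0 : Fin 7) i).injective h2) (by decide)
    · exact hij
  · rw [Perm.mul_apply, swap_apply_left]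

theorem two_mem (I : Ideal R) (x : R) (k : ℂ) (hk : k ≠ 0) (h : C k * x ∈ I) : x ∈ I := by
  have : x = C k⁻¹ * (C k * x) := by
    rw [← mul_assoc, ← C_mul, inv_mul_cancel₀ hk, C_1, one_mul]
  rw [this]
  exact I.mul_mem_left _ h

theorem main : TaskGen1 := by
  intro n Fv h
  have hf : ∀ σ : G, rename σ (g n + al * Fv 0 + be * Fv 1) =
      g n + ((Equiv.Perm.sign σ : ℤ) : R) * (al * Fv (σ 0) + be * Fv (σ 1)) := by
    intro σ
    rw [map_add, map_add, map_mul, map_mul, g_inv, al_inv, be_inv, h.act, h.act]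
    ring
  apply le_antisymm
  · set W := symIdeal (g n + al * Fv 0 + be * Fv 1) with hW
    have hmem : ∀ σ : G, g n + ((Equiv.Perm.sign σ : ℤ) : R) * (al * Fv (σ 0) + be * Fv (σ 1)) ∈ W := by
      intro σ
      rw [← hf σ]
      exact Ideal.subset_span ⟨σ, rfl⟩
    have hg : g n ∈ W := by
      have h1 := hmem 1
      have h2 := hmem (swap 2 3)
      have h3 := W.add_mem h1 h2
      apply two_mem W (g n) 2 two_ne_zero
      have e : C (2 : ℂ) * g n = (g n + ((Equiv.Perm.sign (1 : G) : ℤ) : R) *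
          (al * Fv ((1 : G) 0) + be * Fv ((1 : G) 1))) +
          (g n + ((Equiv.Perm.sign (swap 2 3 : G) : ℤ) : R) *
          (al * Fv ((swap 2 3 : G) 0) + be * Fv ((swap 2 3 : G) 1))) := by
        have s1 : (swap 2 3 : G) 0 = 0 := by decide
        have s2 : (swap 2 3 : G) 1 = 1 := by decide
        have s3 : Equiv.Perm.sign (swap 2 3 : G) = -1 := Equiv.Perm.sign_swap (by decide)
        have c2 : (C (2 : ℂ) : R) = 2 := by
          rw [show (2 : ℂ) = 1 + 1 by norm_num, C_add, C_1]; norm_num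
        rw [s1, s2, s3, Equiv.Perm.sign_one, Perm.one_apply, Perm.one_apply, c2]
        push_cast
        ring
      rw [e]
      exact h3
    have h2 : ∀ i j : Fin 7, i ≠ j → al * Fv i + be * Fv j ∈ W := by
      intro i j hij
      obtain ⟨σ, h0, h1⟩ := exists_perm i j hij
      have h3 := W.sub_mem (hmem σ) hg
      rw [h0, h1, add_sub_cancel_left] at h3
      rcases Int.units_eq_one_or (Equiv.Perm.sign σ) with hs | hs
      · rw [hs] at h3
        simpa using h3
      · rw [hs] at h3
        have h4 := W.neg_mem h3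
        have e : -((((-1 : ℤˣ) : ℤ) : R) * (al * Fv i + be * Fv j)) = al * Fv i + be * Fv j := by
          push_cast
          ring
        rw [e] at h4
        exact h4
    have h3 : ∀ i k : Fin 7, al * (Fv i - Fv k) ∈ W := by
      intro i k
      have : ∃ j : Fin 7, i ≠ j ∧ k ≠ j := by
        revert i k
        decide
      obtain ⟨j, hj1, hj2⟩ := this
      have h4 := W.sub_mem (h2 i j hj1) (h2 k j hj2)
      have e : al * Fv i + be * Fv j - (al * Fv k + be * Fv j) = al * (Fv i - Fv k) := by ring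
      rwa [e] at h4
    have h4 : ∀ i : Fin 7, al * Fv i ∈ W := by
      intro i
      apply two_mem W _ 7 (by norm_num)
      have h5 : ∑ k : Fin 7, al * (Fv i - Fv k) ∈ W := W.sum_mem (fun k _ => h3 i k)
      have e : ∑ k : Fin 7, al * (Fv i - Fv k) = C (7 : ℂ) * (al * Fv i) := by
        rw [← Finset.mul_sum, Finset.sum_sub_distrib, h.sum, Finset.sum_const, Finset.card_univ,
          Fintype.card_fin]
        have c7 : (C (7 : ℂ) : R) = 7 := by
          rw [show (7 : ℂ) = ((7 : ℕ) : ℂ) by norm_num, map_natCast]; norm_num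
        rw [c7, nsmul_eq_mul]
        push_cast
        ring
      rwa [e] at h5
    have h5 : ∀ j : Fin 7, be * Fv j ∈ W := by
      intro j
      have : ∃ i : Fin 7, i ≠ j := by
        revert j
        decide
      obtain ⟨i, hi⟩ := this
      have h6 := W.sub_mem (h2 i j hi) (h4 i)
      rwa [add_sub_cancel_left] at h6
    unfold J
    rw [Ideal.span_le]
    rintro x ((hx | ⟨i, rfl⟩) | ⟨i, rfl⟩)
    · rw [Set.mem_singleton_iff] at hx
      rw [hx]
      exact hg
    · exact h4 i
    · exact h5 i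
  · unfold symIdeal
    rw [Ideal.span_le]
    rintro x ⟨σ, rfl⟩
    show rename σ (g n + al * Fv 0 + be * Fv 1) ∈ J n Fv
    rw [hf σ]
    have m1 : g n ∈ J n Fv := Ideal.subset_span (Or.inl (Or.inl rfl))
    have m2 : al * Fv (σ 0) ∈ J n Fv := Ideal.subset_span (Or.inl (Or.inr ⟨σ 0, rfl⟩))
    have m3 : be * Fv (σ 1) ∈ J n Fv := Ideal.subset_span (Or.inr ⟨σ 1, rfl⟩)
    exact (J n Fv).add_mem m1 ((J n Fv).mul_mem_left _ ((J n Fv).add_mem m2 m3))

end Q318.PSI.TaskGen1
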