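import Pool.Agent.Q318.PSI.Stmts

set_option autoImplicit false

namespace Q318.PSI.TaskGen2

open Q318.PSI MvPolynomial Equiv

lemma ren_e1 (σ : G) : rename σ e1 = e1 := by
  unfold e1
  rw [map_sum]
  simp only [rename_X]
  exact Equiv.sum_comp σ (fun i => (X i : R))

lemma ren_be (σ : G) : rename σ be = be := by
  unfold be
  rw [map_sum]
  simp only [map_pow, rename_X]
  exact Equiv.sum_comp σ (fun i => (X i : R) ^ 2)

lemma ren_al (σ : G) : rename σ al = al := by
  unfold al
  rw [map_pow, ren_e1]

lemma ren_g (n : ℕ) (σ : G) : rename σ (g n) = g n := by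
  unfold g
  rw [map_pow, ren_e1]

lemma ren_u {n : ℕ} {F : Fin 7 → R} (h : Cov n F) (σ : G) (i j : Fin 7) :
    rename σ (F i * F j) = F (σ i) * F (σ j) := by
  rw [map_mul, h.act, h.act]
  rcases Int.units_eq_one_or (Equiv.Perm.sign σ) with h1 | h1 <;> rw [h1] <;> simp

/-- three-transitivity -/
lemma trans3 (p q r a b c : Fin 7) (hpq : p ≠ q) (hpr : p ≠ r) (hqr : q ≠ r) (hab : a ≠ b)
    (hac : a ≠ c) (hbc : b ≠ c) : ∃ σ : G, σ p = a ∧ σ q = b ∧ σ r = c := by
  let s1 : G := swap p a
  have e1 : s1 p = a := swap_apply_left p a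
  let s2 : G := swap (s1 q) b
  have h1 : a ≠ s1 q := by
    rw [← e1]
    exact fun h => hpq (s1.injective h)
  have e2 : s2 a = a := swap_apply_of_ne_of_ne h1 hab
  have e3 : s2 (s1 q) = b := swap_apply_left _ _
  let s3 : G := swap (s2 (s1 r)) c
  have h2 : a ≠ s2 (s1 r) := by
    intro h
    apply hpr
    apply s1.injective
    apply s2.injective
    rw [e1, e2]
    exact h
  have h3 : b ≠ s2 (s1 r) := by
    rw [← e3]
    intro h
    exact hqr (s1.injective (s2.injective h))
  refine ⟨s3 * (s2 * s1), ?_, ?_, ?_⟩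
  · rw [Perm.mul_apply, Perm.mul_apply, e1, e2]
    exact swap_apply_of_ne_of_ne h2 hac
  · rw [Perm.mul_apply, Perm.mul_apply, e3]
    exact swap_apply_of_ne_of_ne h3 hbc
  · rw [Perm.mul_apply, Perm.mul_apply]
    exact swap_apply_left _ _

lemma third (i k : Fin 7) : ∃ j : Fin 7, i ≠ j ∧ k ≠ j := by
  revert i k
  decide

lemma third' (i j : Fin 7) : ∃ k : Fin 7, i ≠ k ∧ j ≠ k := third i j

/-- division by a nonzero number -/
lemma div_mem {W : Ideal R} {c : ℂ} (hc : c ≠ 0) {x : R} (h : C c * x ∈ W) : x ∈ W := by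
  have h1 := W.mul_mem_left (C c⁻¹) h
  rw [← mul_assoc, ← C_mul, inv_mul_cancel₀ hc, C_1, one_mul] at h1
  exact h1

lemma lemA {W : Ideal R} {F : Fin 7 → R} (hs : ∑ i, F i = 0) {κ lam : R}
    (h : ∀ i j, i ≠ j → κ * F i + lam * F j ∈ W) : ∀ i, κ * F i ∈ W ∧ lam * F i ∈ W := by
  have h1 : ∀ i k, κ * F i - κ * F k ∈ W := by
    intro i k
    obtain ⟨j, hij, hkj⟩ := third i k
    have := W.sub_mem (h i j hij) (h k j hkj)
    convert this using 1
    ring
  have h2 : ∀ i, κ * F i ∈ W := by
    intro i
    have h3 : ∑ k, (κ * F i - κ * F k) ∈ W := W.sum_mem fun k _ => h1 i k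
    have e0 : ∑ k, κ * F k = 0 := by rw [← Finset.mul_sum, hs, mul_zero]
    rw [Finset.sum_sub_distrib, e0, sub_zero, Finset.sum_const,
      Finset.card_univ, Fintype.card_fin] at h3
    refine div_mem (c := 7) (by norm_num) ?_
    convert h3 using 1
    rw [nsmul_eq_mul]
    congr 1
  intro i
  refine ⟨h2 i, ?_⟩
  obtain ⟨j, hij, _⟩ := third i i
  have := W.sub_mem (h j i hij.symm) (h2 j)
  convert this using 1
  ring

lemma lemB {W : Ideal R} {F : Fin 7 → R} (hs : ∑ i, F i = 0) (hq : ∑ i, F i ^ 2 = 0) {κ : R}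
    (h : ∀ a b c, a ≠ b → a ≠ c → b ≠ c → κ * (F a * F b) - κ * (F a * F c) ∈ W) :
    ∀ i j, κ * (F i * F j) ∈ W := by
  have h1 : ∀ a b c, a ≠ b → a ≠ c → κ * (F a * F b) - κ * (F a * F c) ∈ W := by
    intro a b c hab hac
    by_cases hbc : b = c
    · rw [hbc, sub_self]; exact W.zero_mem
    · exact h a b c hab hac hbc
  have h2 : ∀ i j k l, i ≠ j → k ≠ l → κ * (F i * F j) - κ * (F k * F l) ∈ W := by
    intro i j k l hij hkl
    by_cases hik : i = k
    · subst hik
      exact h1 i j l hij hkl
    · have h3 := h1 i j k hij hik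
      have h4 := h1 k i l (Ne.symm hik) hkl
      have := W.add_mem h3 h4
      convert this using 1
      ring
  have h5 : ∀ i j k, i ≠ j → C 6 * (κ * (F i * F j)) + κ * F k ^ 2 ∈ W := by
    intro i j k hij
    have h3 : ∑ l ∈ Finset.univ.erase k, (κ * (F i * F j) - κ * (F k * F l)) ∈ W :=
      W.sum_mem fun l hl => h2 i j k l hij (Finset.ne_of_mem_erase hl).symm
    have h4 : F k + ∑ l ∈ Finset.univ.erase k, F l = 0 := by
      rw [Finset.add_sum_erase _ _ (Finset.mem_univ k), hs]
    rw [Finset.sum_sub_distrib, Finset.sum_const, Finset.card_erase_of_mem (Finset.mem_univ k),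
      Finset.card_univ, Fintype.card_fin, ← Finset.mul_sum, ← Finset.mul_sum] at h3
    convert h3 using 1
    have h6 : ∑ l ∈ Finset.univ.erase k, F l = - F k := by linear_combination h4
    rw [h6, nsmul_eq_mul]
    have h7 : (C 6 : R) = ((7 - 1 : ℕ) : R) := by
      norm_num [map_ofNat (C : ℂ →+* R) 6]
    rw [h7]
    ring
  have h6 : ∀ i j, i ≠ j → κ * (F i * F j) ∈ W := by
    intro i j hij
    have h3 : ∑ k : Fin 7, (C 6 * (κ * (F i * F j)) + κ * F k ^ 2) ∈ W :=
      W.sum_mem fun k _ => h5 i j k hij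
    have e0 : ∑ k, κ * F k ^ 2 = 0 := by rw [← Finset.mul_sum, hq, mul_zero]
    rw [Finset.sum_add_distrib, e0, add_zero, Finset.sum_const,
      Finset.card_univ, Fintype.card_fin] at h3
    refine div_mem (c := 42) (by norm_num) ?_
    convert h3 using 1
    have h7 : ((7 : ℕ) : R) = C 7 := (map_natCast (C : ℂ →+* R) 7).symm
    have h8 : (C 42 : R) = C 7 * C 6 := by
      rw [← C_mul]
      norm_num
    rw [nsmul_eq_mul, h7, h8]
    ring
  intro i j
  by_cases hij : i = j
  · subst hij
    obtain ⟨k, hk, _⟩ := third i i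
    have h7 := W.sub_mem (h5 i k i hk) (W.mul_mem_left (C 6) (h6 i k hk))
    convert h7 using 1
    ring
  · exact h6 i j hij

lemma ren_mem {W : Ideal R} {f : R} (hW : W = symIdeal f) (σ : G) {w : R} (hw : w ∈ W) :
    rename σ w ∈ W := by
  have h : W ≤ W.comap (rename σ : R →ₐ[ℂ] R) := by
    conv_lhs => rw [hW, symIdeal]
    rw [Ideal.span_le]
    rintro _ ⟨τ, rfl⟩
    show rename σ (rename τ f) ∈ W
    rw [rename_rename, hW]
    exact Ideal.subset_span ⟨σ * τ, rfl⟩
  exact h hw

theorem main : Q318.PSI.TaskGen2 := by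
  intro n F hF
  set f : R := g n ^ 2 + g n * al * F 0 + g n * be * F 1 + al ^ 2 * (F 2 * F 3) +
    al * be * (F 4 * F 5) + be ^ 2 * (F 0 * F 1) with hf
  have hren : ∀ σ : G, rename σ f = g n ^ 2 + ((Equiv.Perm.sign σ : ℤ) : R) *
      (g n * al * F (σ 0) + g n * be * F (σ 1)) + al ^ 2 * (F (σ 2) * F (σ 3)) +
      al * be * (F (σ 4) * F (σ 5)) + be ^ 2 * (F (σ 0) * F (σ 1)) := by
    intro σ
    rw [hf]
    simp only [map_add]
    rw [map_mul (rename σ) (al ^ 2), map_mul (rename σ) (al * be), map_mul (rename σ) (be ^ 2),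
      ren_u hF, ren_u hF, ren_u hF]
    simp only [map_mul, map_pow, ren_g, ren_al, ren_be, hF.act]
    ring
  apply le_antisymm
  · -- the hard inclusion
    have hW := rfl (a := symIdeal f)
    set W := symIdeal f with hWd
    have hfW : f ∈ W := by
      rw [hWd]
      exact Ideal.subset_span ⟨1, by simp⟩
    have hrW : ∀ σ : G, rename σ f ∈ W := fun σ => ren_mem hWd σ hfW
    -- step 1
    have s1 : g n * al * F 0 + g n * be * F 1 ∈ W := by
      have h1 := W.sub_mem hfW (hrW (swap 2 3))
      rw [hren, Perm.sign_swap (by decide)] at h1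
      have e0 : (swap 2 3 : G) 0 = 0 := by decide
      have e1 : (swap 2 3 : G) 1 = 1 := by decide
      have e2 : (swap 2 3 : G) 2 = 3 := by decide
      have e3 : (swap 2 3 : G) 3 = 2 := by decide
      have e4 : (swap 2 3 : G) 4 = 4 := by decide
      have e5 : (swap 2 3 : G) 5 = 5 := by decide
      rw [e0, e1, e2, e3, e4, e5] at h1
      refine div_mem (c := 2) (by norm_num) ?_
      convert h1 using 1
      have : (C 2 : R) = 2 := map_ofNat (C : ℂ →+* R) 2
      rw [this, hf]
      push_cast
      ring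
    have s2 : ∀ i j, i ≠ j → g n * al * F i + g n * be * F j ∈ W := by
      intro i j hij
      obtain ⟨k, hik, hjk⟩ := third i j
      obtain ⟨σ, h0, h1, -⟩ := trans3 0 1 2 i j k (by decide) (by decide) (by decide) hij hik hjk
      have h2 := ren_mem hWd σ s1
      simp only [map_add, map_mul, ren_g, ren_al, ren_be, hF.act, h0, h1] at h2
      rcases Int.units_eq_one_or (Equiv.Perm.sign σ) with h3 | h3
      · rw [h3] at h2
        convert h2 using 1
        push_cast
        ring
      · rw [h3] at h2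
        have h4 := W.neg_mem h2
        convert h4 using 1
        push_cast
        ring
    have s3 := lemA hF.sum s2
    -- step 2
    set f' : R := g n ^ 2 + al ^ 2 * (F 2 * F 3) + al * be * (F 4 * F 5) + be ^ 2 * (F 0 * F 1)
      with hf'
    have s4 : f' ∈ W := by
      have := W.sub_mem (W.sub_mem hfW (s3 0).1) (s3 1).2
      convert this using 1
      rw [hf, hf']
      ring
    have hren' : ∀ σ : G, g n ^ 2 + al ^ 2 * (F (σ 2) * F (σ 3)) +
      al * be * (F (σ 4) * F (σ 5)) + be ^ 2 * (F (σ 0) * F (σ 1)) ∈ W := by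
      intro σ
      have h1 := ren_mem hWd σ s4
      rw [hf'] at h1
      simp only [map_add] at h1
      rw [map_mul (rename σ) (al ^ 2), map_mul (rename σ) (al * be), map_mul (rename σ) (be ^ 2),
        ren_u hF, ren_u hF, ren_u hF] at h1
      simp only [map_mul, map_pow, ren_g, ren_al, ren_be] at h1
      exact h1
    have k1 : ∀ i j, al ^ 2 * (F i * F j) ∈ W := by
      apply lemB hF.sum hF.sq
      intro a b c hab hac hbc
      obtain ⟨σ, h2, h3, h6⟩ := trans3 2 3 6 a b c (by decide) (by decide) (by decide) hab hac hbc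
      have h7 := W.sub_mem (hren' σ) (hren' (σ * swap 3 6))
      have e0 : (swap 3 6 : G) 0 = 0 := by decide
      have e1 : (swap 3 6 : G) 1 = 1 := by decide
      have e2 : (swap 3 6 : G) 2 = 2 := by decide
      have e3 : (swap 3 6 : G) 3 = 6 := by decide
      have e4 : (swap 3 6 : G) 4 = 4 := by decide
      have e5 : (swap 3 6 : G) 5 = 5 := by decide
      simp only [Perm.mul_apply, e0, e1, e2, e3, e4, e5, h2, h3, h6] at h7
      convert h7 using 1
      ring
    have k2 : ∀ i j, al * be * (F i * F j) ∈ W := by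
      apply lemB hF.sum hF.sq
      intro a b c hab hac hbc
      obtain ⟨σ, h4, h5, h6⟩ := trans3 4 5 6 a b c (by decide) (by decide) (by decide) hab hac hbc
      have h7 := W.sub_mem (hren' σ) (hren' (σ * swap 5 6))
      have e0 : (swap 5 6 : G) 0 = 0 := by decide
      have e1 : (swap 5 6 : G) 1 = 1 := by decide
      have e2 : (swap 5 6 : G) 2 = 2 := by decide
      have e3 : (swap 5 6 : G) 3 = 3 := by decide
      have e4 : (swap 5 6 : G) 4 = 4 := by decide
      have e5 : (swap 5 6 : G) 5 = 6 := by decide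
      simp only [Perm.mul_apply, e0, e1, e2, e3, e4, e5, h4, h5, h6] at h7
      convert h7 using 1
      ring
    have k3 : ∀ i j, be ^ 2 * (F i * F j) ∈ W := by
      apply lemB hF.sum hF.sq
      intro a b c hab hac hbc
      obtain ⟨σ, h0, h1, h6⟩ := trans3 0 1 6 a b c (by decide) (by decide) (by decide) hab hac hbc
      have h7 := W.sub_mem (hren' σ) (hren' (σ * swap 1 6))
      have e0 : (swap 1 6 : G) 0 = 0 := by decide
      have e1 : (swap 1 6 : G) 1 = 6 := by decide
      have e2 : (swap 1 6 : G) 2 = 2 := by decide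
      have e3 : (swap 1 6 : G) 3 = 3 := by decide
      have e4 : (swap 1 6 : G) 4 = 4 := by decide
      have e5 : (swap 1 6 : G) 5 = 5 := by decide
      simp only [Perm.mul_apply, e0, e1, e2, e3, e4, e5, h0, h1, h6] at h7
      convert h7 using 1
      ring
    have k0 : g n ^ 2 ∈ W := by
      have := W.sub_mem (W.sub_mem (W.sub_mem s4 (k1 2 3)) (k2 4 5)) (k3 0 1)
      convert this using 1
      rw [hf']
      ring
    rw [pow_two, J, Ideal.span_mul_span', Ideal.span_le]
    rintro _ ⟨a, ha, b, hb, rfl⟩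
    show a * b ∈ W
    rcases ha with (ha | ⟨i, rfl⟩) | ⟨i, rfl⟩
    · rw [Set.mem_singleton_iff] at ha
      subst ha
      rcases hb with (hb | ⟨j, rfl⟩) | ⟨j, rfl⟩
      · rw [Set.mem_singleton_iff] at hb
        subst hb
        rw [← pow_two]
        exact k0
      · have := (s3 j).1
        convert this using 1
        simp only []
        ring
      · have := (s3 j).2
        convert this using 1
        simp only []
        ring
    · rcases hb with (hb | ⟨j, rfl⟩) | ⟨j, rfl⟩
      · rw [Set.mem_singleton_iff] at hb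
        subst hb
        have := (s3 i).1
        convert this using 1
        simp only []
        ring
      · have := k1 i j
        convert this using 1
        simp only []
        ring
      · have := k2 i j
        convert this using 1
        simp only []
        ring
    · rcases hb with (hb | ⟨j, rfl⟩) | ⟨j, rfl⟩
      · rw [Set.mem_singleton_iff] at hb
        subst hb
        have := (s3 i).2
        convert this using 1
        simp only []
        ring
      · have := k2 i j
        convert this using 1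
        simp only []
        ring
      · have := k3 i j
        convert this using 1
        simp only []
        ring
  · rw [symIdeal, Ideal.span_le]
    rintro _ ⟨σ, rfl⟩
    show rename σ f ∈ J n F ^ 2
    rw [hren σ, pow_two (J n F)]
    have hg : g n ∈ J n F := Ideal.subset_span (Or.inl (Or.inl rfl))
    have ha : ∀ i, al * F i ∈ J n F := fun i => Ideal.subset_span (Or.inl (Or.inr ⟨i, rfl⟩))
    have hb : ∀ i, be * F i ∈ J n F := fun i => Ideal.subset_span (Or.inr ⟨i, rfl⟩)
    refine Ideal.add_mem _ (Ideal.add_mem _ (Ideal.add_mem _ (Ideal.add_mem _ ?_ ?_) ?_) ?_) ?_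
    · rw [pow_two]
      exact Ideal.mul_mem_mul hg hg
    · refine Ideal.mul_mem_left _ _ (Ideal.add_mem _ ?_ ?_)
      · rw [mul_assoc]; exact Ideal.mul_mem_mul hg (ha _)
      · rw [mul_assoc]; exact Ideal.mul_mem_mul hg (hb _)
    · have := Ideal.mul_mem_mul (ha (σ 2)) (ha (σ 3))
      convert this using 1
      ring
    · have := Ideal.mul_mem_mul (ha (σ 4)) (hb (σ 5))
      convert this using 1
      ring
    · have := Ideal.mul_mem_mul (hb (σ 0)) (hb (σ 1))
      convert this using 1
      ring

end Q318.PSI.TaskGen2
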