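import Mathlib
import Pool.Agent.Q318.PSI.Stmts

set_option autoImplicit false

namespace Q318.PSI.TaskGraded2

open Q318.PSI MvPolynomial Equiv

theorem low_coeff {m : ℕ} {x : R} (h : ∀ j < m, homogeneousComponent j x = 0)
    (d : Fin 7 →₀ ℕ) (hd : d.degree < m) : coeff d x = 0 := by
  have h1 := coeff_homogeneousComponent (n := d.degree) (φ := x) d
  rw [if_pos rfl, h _ hd, coeff_zero] at h1
  exact h1.symm

theorem comp_mul {m : ℕ} {x : R} (r : R) (h : ∀ j < m, homogeneousComponent j x = 0) :
    homogeneousComponent m (r * x) = C (coeff 0 r) * homogeneousComponent m x := by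
  ext d
  rw [coeff_homogeneousComponent, coeff_C_mul, coeff_homogeneousComponent]
  split_ifs with hd
  · rw [coeff_mul, Finset.sum_eq_single (0, d)]
    · rintro ⟨u, v⟩ huv hne
      rw [Finset.HasAntidiagonal.mem_antidiagonal] at huv
      simp only at huv
      have h1 : u.degree + v.degree = m := by
        rw [← hd, ← huv, map_add]
      have h2 : u ≠ 0 := by
        rintro rfl
        apply hne
        rw [zero_add] at huv
        rw [huv]
      have h3 : u.degree ≠ 0 := by
        intro h0
        exact h2 ((Finsupp.degree_eq_zero_iff u).1 h0)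
      have h4 : v.degree < m := by omega
      rw [low_coeff h v h4, mul_zero]
    · intro hn
      exfalso
      apply hn
      rw [Finset.HasAntidiagonal.mem_antidiagonal]
      simp
  · rw [mul_zero]

theorem comp_mul_low {m : ℕ} {x : R} (r : R) (h : ∀ j < m, homogeneousComponent j x = 0)
    (j : ℕ) (hj : j < m) : homogeneousComponent j (r * x) = 0 := by
  ext d
  rw [coeff_homogeneousComponent, coeff_zero]
  split_ifs with hd
  · rw [coeff_mul]
    apply Finset.sum_eq_zero
    rintro ⟨u, v⟩ huv
    rw [Finset.HasAntidiagonal.mem_antidiagonal] at huv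
    simp only at huv
    have h1 : u.degree + v.degree = j := by
      rw [← hd, ← huv, map_add]
    have h4 : v.degree < m := by omega
    rw [low_coeff h v h4, mul_zero]
  · rfl

theorem main : TaskGraded2 := by
  intro m f hf p hp
  have key : homogeneousComponent m p ∈
      Submodule.span ℂ (Set.range fun σ : G => rename σ (homogeneousComponent m f)) ∧
      ∀ j < m, homogeneousComponent j p = 0 := by
    unfold symIdeal at hp
    induction hp using Submodule.span_induction with
    | mem x hx =>
      obtain ⟨σ, rfl⟩ := hx
      refine ⟨?_, fun j hj => ?_⟩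
      · simp only
        rw [← rename_homogeneousComponent]
        exact Submodule.subset_span ⟨σ, rfl⟩
      · simp only
        rw [← rename_homogeneousComponent, hf j hj, map_zero]
    | zero => exact ⟨by rw [map_zero]; exact Submodule.zero_mem _, fun j _ => map_zero _⟩
    | add x y _ _ hx hy =>
      refine ⟨?_, fun j hj => ?_⟩
      · rw [map_add]
        exact Submodule.add_mem _ hx.1 hy.1
      · rw [map_add, hx.2 j hj, hy.2 j hj, add_zero]
    | smul r x _ hx =>
      refine ⟨?_, fun j hj => ?_⟩
      · rw [smul_eq_mul, comp_mul r hx.2, ← smul_eq_C_mul]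
        exact Submodule.smul_mem _ _ hx.1
      · rw [smul_eq_mul]
        exact comp_mul_low r hx.2 j hj
  exact key.1

end Q318.PSI.TaskGraded2
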