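import Pool.Agent.Q318.PSI.Stmts

/-! Top homogeneous components (blueprint lemma for `MP_e01960_al`). -/

set_option autoImplicit false

namespace Q318.PSI.TaskHomog

open Q318.PSI MvPolynomial Equiv

lemma coeff_zero_of_lt {n : ℕ} {p : R} (hp : p.totalDegree ≤ n) {a : Fin 7 →₀ ℕ}
    (ha : n < a.degree) : coeff a p = 0 := by
  apply coeff_eq_zero_of_totalDegree_lt
  have h := Finsupp.degree_apply a
  omega

lemma hc_sq {n : ℕ} {p : R} (hp : p.totalDegree ≤ n) :
    homogeneousComponent (2 * n) (p ^ 2) = homogeneousComponent n p ^ 2 := by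
  classical
  ext d
  rw [coeff_homogeneousComponent]
  split_ifs with h
  · rw [pow_two, pow_two, coeff_mul, coeff_mul]
    apply Finset.sum_congr rfl
    rintro ⟨a, b⟩ hab
    rw [Finset.HasAntidiagonal.mem_antidiagonal] at hab
    have hdeg : a.degree + b.degree = 2 * n := by
      rw [← h, ← hab]; exact (map_add Finsupp.degree a b).symm
    simp only [coeff_homogeneousComponent]
    rcases lt_trichotomy a.degree n with h1 | h1 | h1
    · have hb : n < b.degree := by omega
      rw [coeff_zero_of_lt hp hb]
      simp
    · have hb : b.degree = n := by omega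
      simp [h1, hb]
    · rw [coeff_zero_of_lt hp h1]
      simp
  · have h2 : (homogeneousComponent n p ^ 2).IsHomogeneous (n * 2) :=
      (homogeneousComponent_isHomogeneous n p).pow 2
    rw [h2.coeff_eq_zero (by omega)]

theorem main : Q318.PSI.TaskHomog := by
  classical
  intro Y hY hact hsum hsq
  have hne : (Finset.univ.filter fun i => Y i ≠ 0).Nonempty := by
    by_contra h
    apply hY
    funext i
    by_contra hi
    exact h ⟨i, by simpa using hi⟩
  obtain ⟨i0, hi0, hmax⟩ := Finset.exists_max_image _ (fun i => (Y i).totalDegree) hne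
  have hi0' : Y i0 ≠ 0 := by simpa using hi0
  have hle : ∀ i, (Y i).totalDegree ≤ (Y i0).totalDegree := by
    intro i
    by_cases hi : Y i = 0
    · rw [hi]; simp
    · exact hmax i (by simpa using hi)
  set n := (Y i0).totalDegree with hn
  refine ⟨n, fun i => homogeneousComponent n (Y i), ?_, fun i =>
    homogeneousComponent_isHomogeneous n _, ?_, ?_, ?_⟩
  · intro h0
    have h1 : homogeneousComponent n (Y i0) = 0 := congrFun h0 i0
    have hsupp : (Y i0).support.Nonempty := by
      rw [Finset.nonempty_iff_ne_empty]
      intro h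
      exact hi0' (MvPolynomial.support_eq_empty.mp h)
    obtain ⟨d, hd, hd'⟩ := Finset.exists_mem_eq_sup _ hsupp
      (fun s : Fin 7 →₀ ℕ => s.sum fun _ e => e)
    have hdeg : d.degree = n := by
      rw [hn, MvPolynomial.totalDegree, hd']
      rfl
    have h2 : coeff d (homogeneousComponent n (Y i0)) = 0 := by rw [h1]; simp
    rw [coeff_homogeneousComponent, if_pos hdeg] at h2
    exact (MvPolynomial.mem_support_iff.mp hd) h2
  · intro σ i
    show rename σ (homogeneousComponent n (Y i)) = homogeneousComponent n (Y (σ i))
    rw [← hact σ i]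
    exact rename_homogeneousComponent n (Y i)
  · rw [← map_sum, hsum, map_zero]
  · have h1 : ∀ i, homogeneousComponent n (Y i) ^ 2 = homogeneousComponent (2 * n) (Y i ^ 2) :=
      fun i => (hc_sq (hle i)).symm
    simp only [h1]
    rw [← map_sum, hsq, map_zero]

end Q318.PSI.TaskHomog
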