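import Pool.Agent.Q318.PSI.Stmts

set_option autoImplicit false

namespace Q318.PSI.TaskIndep

open MvPolynomial Equiv

theorem rename_e1 (σ : G) : rename σ e1 = e1 := by
  unfold e1
  rw [map_sum]
  simp only [rename_X]
  exact Equiv.sum_comp σ (fun i => (X i : R))

theorem rename_al (σ : G) : rename σ al = al := by
  unfold al
  rw [map_pow, rename_e1]

theorem rename_g (σ : G) (n : ℕ) : rename σ (g n) = g n := by
  unfold g
  rw [map_pow, rename_e1]

theorem rename_be (σ : G) : rename σ be = be := by
  unfold be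
  rw [map_sum]
  simp only [map_pow, rename_X]
  exact Equiv.sum_comp σ (fun i => (X i : R) ^ 2)

/-- the image of the linear combination under a transposition -/
theorem rename_S {n : ℕ} {Fv : Fin 7 → R} (h : Cov n Fv) (a : Fin 7 → ℂ) {i j : Fin 7}
    (hij : i ≠ j) :
    rename (swap i j) (∑ k, C (a k) * Fv k) = -∑ k, C (a k) * Fv (swap i j k) := by
  rw [map_sum, ← Finset.sum_neg_distrib]
  refine Finset.sum_congr rfl fun k _ => ?_
  rw [map_mul, rename_C, h.act, Equiv.Perm.sign_swap hij]
  push_cast
  ring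

theorem diff_S (Fv : Fin 7 → R) (a : Fin 7 → ℂ) {i j : Fin 7} (hij : i ≠ j) :
    (∑ k, C (a k) * Fv k) - ∑ k, C (a k) * Fv (swap i j k) =
      C (a i - a j) * (Fv i - Fv j) := by
  rw [← Finset.sum_sub_distrib]
  have h1 : ∑ k, (C (a k) * Fv k - C (a k) * Fv (swap i j k)) =
      ∑ k ∈ ({i, j} : Finset (Fin 7)), (C (a k) * Fv k - C (a k) * Fv (swap i j k)) := by
    symm
    refine Finset.sum_subset (Finset.subset_univ _) ?_
    intro k _ hk
    have hki : k ≠ i := fun h => hk (by simp [h])
    have hkj : k ≠ j := fun h => hk (by simp [h])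
    rw [swap_apply_of_ne_of_ne hki hkj, sub_self]
  rw [h1, Finset.sum_pair hij, swap_apply_left, swap_apply_right, map_sub]
  ring

theorem ne_of_ne {n : ℕ} {Fv : Fin 7 → R} (h : Cov n Fv) {i j : Fin 7} (hij : i ≠ j) :
    Fv i ≠ Fv j := by
  intro heq
  have hall : ∀ k, Fv i = Fv k := by
    intro k
    by_cases hki : k = i
    · rw [hki]
    by_cases hkj : k = j
    · rw [hkj]; exact heq
    -- apply the transposition `(j k)`
    have h1 := h.act (swap j k) i
    have h2 := h.act (swap j k) j
    rw [swap_apply_of_ne_of_ne hij (Ne.symm hki)] at h1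
    rw [swap_apply_left] at h2
    rw [heq, h2, Equiv.Perm.sign_swap (Ne.symm hkj)] at h1
    push_cast at h1
    have h3 : Fv k = Fv i := by linear_combination (-1 : R) * h1 - heq
    exact h3.symm
  have hsum := h.sum
  have h7 : ∑ k, Fv k = (7 : R) * Fv i := by
    rw [Finset.sum_congr rfl (fun k _ => (hall k).symm), Finset.sum_const, Finset.card_univ,
      Fintype.card_fin]
    simp
  rw [h7] at hsum
  have h70 : (7 : R) ≠ 0 := by norm_num
  have hi0 : Fv i = 0 := (mul_eq_zero.1 hsum).resolve_left h70
  obtain ⟨k, hk⟩ := h.nz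
  exact hk ((hall k).symm.trans hi0)

theorem exists_disjoint (i j : Fin 7) : ∃ k l : Fin 7, k ≠ l ∧ i ≠ k ∧ i ≠ l ∧ j ≠ k ∧ j ≠ l := by
  revert i j; decide

theorem main : TaskIndep := by
  intro n Fv h c a b H
  have hg : g n ≠ 0 := by
    unfold g
    apply pow_ne_zero
    intro h0
    have := congrArg (MvPolynomial.eval (fun k : Fin 7 => if k = 0 then (1 : ℂ) else 0)) h0
    simp [e1] at this
  have key : ∀ i j : Fin 7, i ≠ j →
      C (2 * c) * g n + (C (a i - a j) * al + C (b i - b j) * be) * (Fv i - Fv j) = 0 := by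
    intro i j hij
    have h1 := congrArg (rename (swap i j)) H
    rw [map_add, map_add, map_mul, map_mul, map_mul, rename_C, rename_g, rename_al, rename_be,
      rename_S h a hij, rename_S h b hij, map_zero] at h1
    have ha := diff_S Fv a hij
    have hb := diff_S Fv b hij
    have h2 : C (2 * c) * g n = C c * g n + C c * g n := by
      rw [map_mul]
      have : (C (2 : ℂ) : R) = 2 := map_ofNat C 2
      rw [this]; ring
    rw [h2]
    linear_combination H + h1 - al * ha - be * hb
  have hc : c = 0 := by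
    obtain ⟨k, l, hkl, h0k, h0l, h1k, h1l⟩ := exists_disjoint 0 1
    obtain ⟨d, hd⟩ : ∃ d, d = 2 * c := ⟨_, rfl⟩
    have h1 := key 0 1 (by decide)
    rw [← hd] at h1
    generalize a 0 - a 1 = u at h1
    generalize b 0 - b 1 = v at h1
    have h2 := congrArg (rename (swap k l)) h1
    rw [map_add, map_mul, map_mul, map_add, map_mul, map_mul, rename_C, rename_C, rename_C,
      rename_g, rename_al, rename_be, map_sub, h.act, h.act,
      swap_apply_of_ne_of_ne h0k h0l, swap_apply_of_ne_of_ne h1k h1l,
      Equiv.Perm.sign_swap hkl, map_zero] at h2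
    push_cast at h2
    have h3 : C d * g n = 0 := by
      have h4 : (2 : R) * (C d * g n) = 0 := by linear_combination h1 + h2
      have h20 : (2 : R) ≠ 0 := by norm_num
      exact (mul_eq_zero.1 h4).resolve_left h20
    have h5 : (C d : R) = 0 := (mul_eq_zero.1 h3).resolve_right hg
    have h6 : 2 * c = 0 := by
      rw [← hd]
      exact (C_eq_zero (σ := Fin 7)).1 h5
    simpa using h6
  have hab : ∀ i j : Fin 7, a i - a j = 0 ∧ b i - b j = 0 := by
    intro i j
    by_cases hij : i = j
    · subst hij; simp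
    have h1 := key i j hij
    rw [hc, mul_zero, map_zero, zero_mul, zero_add] at h1
    have h2 : (C (a i - a j) * al + C (b i - b j) * be : R) = 0 :=
      (mul_eq_zero.1 h1).resolve_right (sub_ne_zero.2 (ne_of_ne h hij))
    have h3 := congrArg (MvPolynomial.eval (fun k : Fin 7 => if k = 0 then (1 : ℂ) else 0)) h2
    have h4 := congrArg (MvPolynomial.eval (fun k : Fin 7 => if k = 0 then (1 : ℂ) else
      if k = 1 then -1 else 0)) h2
    simp [al, be, e1, Fin.sum_univ_succ] at h3 h4
    constructor
    · linear_combination h3 - h4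
    · exact h4
  refine ⟨hc, fun i j => sub_eq_zero.1 (hab i j).1, fun i j => sub_eq_zero.1 (hab i j).2⟩

end Q318.PSI.TaskIndep
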