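import Pool.Agent.Q318.PSI.Stmts

set_option autoImplicit false

namespace Q318.PSI.TaskIndex

open Q318.PSI MvPolynomial Equiv

/-- the stabiliser of the blocks -/
def H : Subgroup G where
  carrier := {σ | ∀ i, blk (σ i) = blk i}
  one_mem' := fun i => rfl
  mul_mem' := fun {a b} ha hb i => by
    show blk (a (b i)) = blk i
    rw [ha (b i), hb i]
  inv_mem' := fun {a} ha i => by
    have h := ha (a⁻¹ i)
    have h2 : a (a⁻¹ i) = i := Equiv.apply_symm_apply a i
    rw [h2] at h
    exact h.symm

theorem card_H : Nat.card H = 48 := by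
  have e : H ≃ {g : Equiv.Perm (Fin 7) // blk ∘ g = blk} :=
    { toFun := fun σ => ⟨σ.1, funext σ.2⟩
      invFun := fun σ => ⟨σ.1, fun i => congrFun σ.2 i⟩
      left_inv := fun σ => rfl
      right_inv := fun σ => rfl }
  rw [Nat.card_congr e, Nat.card_eq_fintype_card, DomMulAct.stabilizer_card]
  simp only [Fin.prod_univ_three]
  have h0 : Fintype.card {a : Fin 7 // blk a = 0} = 4 := by decide
  have h1 : Fintype.card {a : Fin 7 // blk a = 1} = 2 := by decide
  have h2 : Fintype.card {a : Fin 7 // blk a = 2} = 1 := by decide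
  rw [h0, h1, h2]
  rfl

theorem main : TaskIndex := by
  refine ⟨H, ?_, fun σ hσ => hσ⟩
  have h := Subgroup.index_mul_card H
  rw [card_H, Nat.card_perm, Nat.card_eq_fintype_card, Fintype.card_fin] at h
  have h7 : Nat.factorial 7 = 5040 := by rfl
  rw [h7] at h
  have : H.index = 105 := by omega
  rw [this]
  decide

end Q318.PSI.TaskIndex
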