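import Pool.Agent.Q318.PSI.Stmts

set_option autoImplicit false

namespace Q318.PSI.TaskLin

open Q318.PSI MvPolynomial Equiv

theorem rename_e1 (σ : G) : rename σ e1 = e1 := by
  unfold e1
  rw [map_sum]
  simp only [rename_X]
  exact Equiv.sum_comp σ (fun i => (X i : R))

theorem rename_al (σ : G) : rename σ al = al := by
  unfold al
  rw [map_pow, rename_e1]

theorem rename_be (σ : G) : rename σ be = be := by
  unfold be
  rw [map_sum]
  simp only [map_pow, rename_X]
  exact Equiv.sum_comp σ (fun i => (X i : R) ^ 2)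

theorem rename_g (n : ℕ) (σ : G) : rename σ (g n) = g n := by
  unfold g
  rw [map_pow, rename_e1]

theorem rename_comb {n : ℕ} {Fv : Fin 7 → R} (h : Cov n Fv) (σ : G) (a : Fin 7 → ℂ) :
    rename σ (∑ k, C (a k) * Fv k) =
      ∑ k, C (((Equiv.Perm.sign σ : ℤ) : ℂ) * a (σ⁻¹ k)) * Fv k := by
  rw [map_sum, ← Equiv.sum_comp σ
    (fun k => (C (((Equiv.Perm.sign σ : ℤ) : ℂ) * a (σ⁻¹ k)) : R) * Fv k)]
  refine Finset.sum_congr rfl fun k _ => ?_
  have hk : σ⁻¹ (σ k) = k := σ.symm_apply_apply k
  rw [map_mul, rename_C, h.act, hk, C_mul, map_intCast]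
  ring

/-- the image of `v` under a permutation -/
theorem rename_v {n : ℕ} {Fv : Fin 7 → R} (h : Cov n Fv) (σ : G) (c : ℂ) (a b : Fin 7 → ℂ) :
    rename σ (C c * g n + al * (∑ i, C (a i) * Fv i) + be * (∑ i, C (b i) * Fv i)) =
      C c * g n + al * (∑ k, C (((Equiv.Perm.sign σ : ℤ) : ℂ) * a (σ⁻¹ k)) * Fv k) +
        be * (∑ k, C (((Equiv.Perm.sign σ : ℤ) : ℂ) * b (σ⁻¹ k)) * Fv k) := by
  rw [map_add, map_add, map_mul, map_mul, map_mul, rename_C, rename_g, rename_al, rename_be,
    rename_comb h, rename_comb h]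

/-- Linear combinations. -/
theorem comb_add (Fv : Fin 7 → R) (x y : Fin 7 → ℂ) :
    (∑ k, C (x k) * Fv k) + (∑ k, C (y k) * Fv k) = ∑ k, C (x k + y k) * Fv k := by
  rw [← Finset.sum_add_distrib]
  refine Finset.sum_congr rfl fun k _ => ?_
  rw [C_add]; ring

theorem comb_smul (Fv : Fin 7 → R) (r : ℂ) (x : Fin 7 → ℂ) :
    C r * (∑ k, C (x k) * Fv k) = ∑ k, C (r * x k) * Fv k := by
  rw [Finset.mul_sum]
  refine Finset.sum_congr rfl fun k _ => ?_
  rw [C_mul]; ring

theorem comb_single (Fv : Fin 7 → R) (k : Fin 7) :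
    (∑ l, C (if l = k then (1 : ℂ) else 0) * Fv l) = Fv k := by
  rw [Finset.sum_eq_single k]
  · simp
  · intro l _ hl
    simp [hl]
  · intro hk
    exact absurd (Finset.mem_univ k) hk

theorem main : TaskLin := by
  intro hI n Fv h c a b v hv i j κ hij hκ hW
  obtain ⟨hg, hal, hbe⟩ := hW
  -- the equation `τ v = κ v`
  have hs : ((Equiv.Perm.sign (swap i j) : ℤ) : ℂ) = -1 := by
    rw [Equiv.Perm.sign_swap hij]; norm_num
  have e1 := hκ
  rw [hv, rename_v h] at e1
  rw [hs, Equiv.swap_inv] at e1
  have e2 : C (c * (1 - κ)) * g n +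
      al * (∑ k, C (-1 * a (swap i j k) + (-κ) * a k) * Fv k) +
      be * (∑ k, C (-1 * b (swap i j k) + (-κ) * b k) * Fv k) = 0 := by
    rw [← comb_add Fv (fun k => -1 * a (swap i j k)) (fun k => -κ * a k),
      ← comb_add Fv (fun k => -1 * b (swap i j k)) (fun k => -κ * b k),
      ← comb_smul Fv (-κ) a, ← comb_smul Fv (-κ) b]
    have e3 : (C (c * (1 - κ)) : R) = C c - C κ * C c := by
      rw [C_mul, C_sub, C_1]; ring
    have e4 : (C (-κ) : R) = - C κ := by rw [C_neg]
    rw [e3, e4]
    linear_combination e1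
  obtain ⟨hc, ha, hb⟩ := hI n Fv h _ _ _ e2
  by_cases hκ1 : κ = 1
  · -- `κ = 1`
    subst hκ1
    have third : ∃ l : Fin 7, l ≠ i ∧ l ≠ j := by
      clear e1 e2 ha hb hκ hg hal hbe hs hv hc
      revert i j
      decide
    obtain ⟨l, hli, hlj⟩ := third
    -- all coefficients
    have form : ∀ x : Fin 7 → ℂ,
        (∀ k k', -1 * x (swap i j k) + -1 * x k = -1 * x (swap i j k') + -1 * x k') →
        (∑ k, C (x k) * Fv k) = C (x i - x l) * (Fv i - Fv j) := by
      intro x hx
      have hxk : ∀ k, k ≠ i → k ≠ j → x k = x l := by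
        intro k h1 h2
        have h3 := hx k l
        rw [swap_apply_of_ne_of_ne h1 h2, swap_apply_of_ne_of_ne hli hlj] at h3
        linear_combination (-1 / 2 : ℂ) * h3
      have hxi : x j = 2 * x l - x i := by
        have h3 := hx i l
        rw [swap_apply_left, swap_apply_of_ne_of_ne hli hlj] at h3
        linear_combination (-1 : ℂ) * h3
      have h0 : (∑ k, C (x l) * Fv k) = 0 := by
        rw [← Finset.mul_sum, h.sum, mul_zero]
      have h1 : (∑ k, C (x k) * Fv k) = ∑ k, C (x k - x l) * Fv k := by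
        have : ∀ k, (C (x k - x l) : R) * Fv k = C (x k) * Fv k - C (x l) * Fv k := by
          intro k
          rw [C_sub]; ring
        rw [Finset.sum_congr rfl (fun k _ => this k), Finset.sum_sub_distrib, h0, sub_zero]
      rw [h1, Finset.sum_eq_add_of_mem i j (Finset.mem_univ _) (Finset.mem_univ _) hij]
      · rw [hxi]
        have : (C (2 * x l - x i - x l) : R) = - C (x i - x l) := by
          rw [← C_neg]; congr 1; ring
        rw [this]; ring
      · intro k _ hk
        rw [hxk k hk.1 hk.2, sub_self, C_0, zero_mul]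
    have hA := form a ha
    have hB := form b hb
    set δ := a i - a l
    set ε := b i - b l
    -- the span
    have key : ∀ p ∈ Submodule.span ℂ (Set.range fun σ : G => rename σ v),
        ∃ (c' : ℂ) (d : Fin 7 → ℂ),
          p = C c' * g n + al * (∑ k, C (δ * d k) * Fv k) + be * (∑ k, C (ε * d k) * Fv k) := by
      intro p hp
      induction hp using Submodule.span_induction with
      | mem x hx =>
        obtain ⟨σ, rfl⟩ := hx
        refine ⟨c, fun k => (((Equiv.Perm.sign σ : ℤ) : ℂ)) *
          ((if k = σ i then 1 else 0) - (if k = σ j then 1 else 0)), ?_⟩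
        have h1 : ∀ z : ℂ, (∑ k, C (z * ((((Equiv.Perm.sign σ : ℤ) : ℂ)) *
            ((if k = σ i then 1 else 0) - (if k = σ j then 1 else 0)))) * Fv k) =
            C z * rename σ (Fv i - Fv j) := by
          intro z
          rw [map_sub, h.act, h.act, ← comb_smul]
          congr 1
          have : ∀ k, (C ((((Equiv.Perm.sign σ : ℤ) : ℂ)) *
            ((if k = σ i then 1 else 0) - (if k = σ j then 1 else 0))) : R) * Fv k =
            ((Equiv.Perm.sign σ : ℤ) : R) * (C (if k = σ i then (1 : ℂ) else 0) * Fv k) -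
            ((Equiv.Perm.sign σ : ℤ) : R) * (C (if k = σ j then (1 : ℂ) else 0) * Fv k) := by
            intro k
            rw [C_mul, C_sub, map_intCast]; ring
          rw [Finset.sum_congr rfl (fun k _ => this k), Finset.sum_sub_distrib,
            ← Finset.mul_sum, ← Finset.mul_sum, comb_single, comb_single]
        rw [h1, h1]
        show rename σ v = _
        rw [hv, hA, hB, map_add, map_add, map_mul, map_mul, map_mul, map_mul, map_mul, rename_C,
          rename_C, rename_C, rename_g, rename_al, rename_be]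
      | zero =>
        refine ⟨0, fun _ => 0, ?_⟩
        simp
      | add x y _ _ hx hy =>
        obtain ⟨c1, d1, rfl⟩ := hx
        obtain ⟨c2, d2, rfl⟩ := hy
        refine ⟨c1 + c2, fun k => d1 k + d2 k, ?_⟩
        have h1 : ∀ z : ℂ, (∑ k, C (z * (d1 k + d2 k)) * Fv k) =
            (∑ k, C (z * d1 k) * Fv k) + (∑ k, C (z * d2 k) * Fv k) := by
          intro z
          rw [comb_add]
          refine Finset.sum_congr rfl fun k _ => ?_
          rw [mul_add]
        rw [h1, h1, C_add]; ring
      | smul r x _ hx =>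
        obtain ⟨c1, d1, rfl⟩ := hx
        refine ⟨r * c1, fun k => r * d1 k, ?_⟩
        have h1 : ∀ z : ℂ, (∑ k, C (z * (r * d1 k)) * Fv k) =
            C r * (∑ k, C (z * d1 k) * Fv k) := by
          intro z
          rw [comb_smul]
          refine Finset.sum_congr rfl fun k _ => ?_
          congr 2; ring
        rw [h1, h1, C_mul, smul_eq_C_mul]; ring
    -- the contradiction
    obtain ⟨c1, d1, h1⟩ := key _ (hal 0)
    obtain ⟨c2, d2, h2⟩ := key _ (hbe 0)
    have e5 : C c1 * g n + al * (∑ k, C (δ * d1 k + (-1) * (if k = 0 then (1 : ℂ) else 0)) * Fv k) +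
        be * (∑ k, C (ε * d1 k) * Fv k) = 0 := by
      rw [← comb_add Fv (fun k => δ * d1 k) (fun k => (-1) * (if k = 0 then (1 : ℂ) else 0)),
        ← comb_smul Fv (-1) (fun k => (if k = 0 then (1 : ℂ) else 0)), comb_single]
      rw [C_neg, C_1]
      linear_combination -h1
    have e6 : C c2 * g n + al * (∑ k, C (δ * d2 k) * Fv k) +
        be * (∑ k, C (ε * d2 k + (-1) * (if k = 0 then (1 : ℂ) else 0)) * Fv k) = 0 := by
      rw [← comb_add Fv (fun k => ε * d2 k) (fun k => (-1) * (if k = 0 then (1 : ℂ) else 0)),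
        ← comb_smul Fv (-1) (fun k => (if k = 0 then (1 : ℂ) else 0)), comb_single]
      rw [C_neg, C_1]
      linear_combination -h2
    obtain ⟨-, p1, p2⟩ := hI n Fv h _ _ _ e5
    obtain ⟨-, p3, p4⟩ := hI n Fv h _ _ _ e6
    have q1 := p1 0 1
    have q2 := p2 0 1
    have q4 := p4 0 1
    simp only [if_true, show ((1 : Fin 7) = 0) = False from by simp, if_false] at q1 q2 q4
    have q5 : ε = 0 := by
      have hne : d1 0 - d1 1 ≠ 0 := by
        intro h0
        have : (1 : ℂ) = 0 := by linear_combination δ * h0 - q1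
        exact one_ne_zero this
      have : ε * (d1 0 - d1 1) = 0 := by linear_combination q2
      exact (mul_eq_zero.mp this).resolve_right hne
    rw [q5] at q4
    have : (1 : ℂ) = 0 := by linear_combination -q4
    exact one_ne_zero this
  · -- `κ ≠ 1`
    have hc0 : c = 0 := by
      rcases mul_eq_zero.mp hc with h1 | h1
      · exact h1
      · exact absurd (by linear_combination -h1) hκ1
    subst hc0
    have key : ∀ p ∈ Submodule.span ℂ (Set.range fun σ : G => rename σ v),
        ∃ (x y : Fin 7 → ℂ),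
          p = al * (∑ k, C (x k) * Fv k) + be * (∑ k, C (y k) * Fv k) := by
      intro p hp
      induction hp using Submodule.span_induction with
      | mem x hx =>
        obtain ⟨σ, rfl⟩ := hx
        refine ⟨fun k => ((Equiv.Perm.sign σ : ℤ) : ℂ) * a (σ⁻¹ k),
          fun k => ((Equiv.Perm.sign σ : ℤ) : ℂ) * b (σ⁻¹ k), ?_⟩
        show rename σ v = _
        rw [hv, rename_v h, C_0, zero_mul, zero_add]
      | zero =>
        refine ⟨fun _ => 0, fun _ => 0, ?_⟩
        simp
      | add x y _ _ hx hy =>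
        obtain ⟨c1, d1, rfl⟩ := hx
        obtain ⟨c2, d2, rfl⟩ := hy
        refine ⟨fun k => c1 k + c2 k, fun k => d1 k + d2 k, ?_⟩
        rw [← comb_add, ← comb_add]; ring
      | smul r x _ hx =>
        obtain ⟨c1, d1, rfl⟩ := hx
        refine ⟨fun k => r * c1 k, fun k => r * d1 k, ?_⟩
        rw [← comb_smul, ← comb_smul, smul_eq_C_mul]; ring
    obtain ⟨x, y, h1⟩ := key _ hg
    have e5 : C 1 * g n + al * (∑ k, C ((-1) * x k) * Fv k) + be * (∑ k, C ((-1) * y k) * Fv k)
        = 0 := by
      rw [← comb_smul, ← comb_smul, C_neg, C_1]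
      linear_combination h1
    exact one_ne_zero (hI n Fv h _ _ _ e5).1

end Q318.PSI.TaskLin
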