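import Pool.Agent.Q318.PSI.Stmts

set_option autoImplicit false

namespace Q318.PSI.TaskNo

open Q318.PSI MvPolynomial Equiv

theorem e1_hom : e1.IsHomogeneous 1 := by
  unfold e1
  exact IsHomogeneous.sum _ _ _ fun i _ => isHomogeneous_X _ _

theorem al_hom : al.IsHomogeneous 2 := by
  unfold al
  have := e1_hom.pow 2
  simpa using this

theorem be_hom : be.IsHomogeneous 2 := by
  unfold be
  refine IsHomogeneous.sum _ _ _ fun i _ => ?_
  have := (isHomogeneous_X ℂ i).pow 2
  simpa using this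

theorem g_hom (n : ℕ) : (g n).IsHomogeneous (n + 2) := by
  unfold g
  have := e1_hom.pow (n + 2)
  simpa using this

theorem main : TaskNo := by
  intro hG1 hG2 hInd hLin n Fv hC f hJ i j κ hij hf
  have hal : ∀ k, (al * Fv k).IsHomogeneous (n + 2) := by
    intro k
    have := al_hom.mul (hC.hom k)
    rwa [Nat.add_comm] at this
  have hbe : ∀ k, (be * Fv k).IsHomogeneous (n + 2) := by
    intro k
    have := be_hom.mul (hC.hom k)
    rwa [Nat.add_comm] at this
  have hfmem : f ∈ symIdeal f := Ideal.subset_span ⟨1, by simp⟩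
  have hfJ : f ∈ J n Fv := by rw [hJ]; exact hfmem
  obtain ⟨h1, h2⟩ := hG1 (n + 2) ({g n} ∪ Set.range (fun i => al * Fv i) ∪
    Set.range (fun i => be * Fv i)) (by
      rintro s ((hs | ⟨k, rfl⟩) | ⟨k, rfl⟩)
      · rw [Set.mem_singleton_iff] at hs
        rw [hs]; exact g_hom n
      · exact hal k
      · exact hbe k) f hfJ
  have hv : ∃ (c : ℂ) (a b : Fin 7 → ℂ), homogeneousComponent (n + 2) f =
      C c * g n + al * (∑ i, C (a i) * Fv i) + be * (∑ i, C (b i) * Fv i) := by
    rw [Submodule.span_union, Submodule.span_union] at h1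
    obtain ⟨y, hy, z, hz, hyz⟩ := Submodule.mem_sup.1 h1
    obtain ⟨y1, hy1, y2, hy2, hyy⟩ := Submodule.mem_sup.1 hy
    obtain ⟨c, hc⟩ := Submodule.mem_span_singleton.1 hy1
    obtain ⟨a, ha⟩ := (Submodule.mem_span_range_iff_exists_fun ℂ).1 hy2
    obtain ⟨b, hb⟩ := (Submodule.mem_span_range_iff_exists_fun ℂ).1 hz
    refine ⟨c, a, b, ?_⟩
    rw [← hyz, ← hyy, ← hc, ← ha, ← hb]
    congr 1
    · congr 1
      · rw [smul_eq_C_mul]
      · rw [Finset.mul_sum]
        refine Finset.sum_congr rfl fun i _ => ?_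
        rw [smul_eq_C_mul]; ring
    · rw [Finset.mul_sum]
      refine Finset.sum_congr rfl fun i _ => ?_
      rw [smul_eq_C_mul]; ring
  obtain ⟨c, a, b, hv⟩ := hv
  have hκ : rename (swap i j) (homogeneousComponent (n + 2) f) =
      C κ * homogeneousComponent (n + 2) f := by
    rw [rename_homogeneousComponent, hf, homogeneousComponent_C_mul]
  refine hLin hInd n Fv hC c a b _ hv i j κ hij hκ ?_
  have key : ∀ p : R, p.IsHomogeneous (n + 2) → p ∈ J n Fv →
      p ∈ Submodule.span ℂ (Set.range fun σ : G => rename σ (homogeneousComponent (n + 2) f)) := by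
    intro p hp hpJ
    have := hG2 (n + 2) f h2 p (by rw [← hJ]; exact hpJ)
    rwa [homogeneousComponent_eq_self hp] at this
  refine ⟨key _ (g_hom n) ?_, fun k => key _ (hal k) ?_, fun k => key _ (hbe k) ?_⟩
  · exact Ideal.subset_span (Or.inl (Or.inl rfl))
  · exact Ideal.subset_span (Or.inl (Or.inr ⟨k, rfl⟩))
  · exact Ideal.subset_span (Or.inr ⟨k, rfl⟩)

end Q318.PSI.TaskNo
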