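import Pool.Agent.Q318.PSI.Stmts
import Pool.Agent.Helper273.Brg.P_springer_poly

set_option autoImplicit false

namespace Q318.PSI.TaskSpringer

open Q318.PSI

theorem main : TaskSpringer := by
  intro K _ m A p f hodd hp hdvd
  by_contra hcon
  push Not at hcon
  have han : ∀ w : Fin m → K, ∑ i, ∑ j, A i j * w i * w j = 0 → w = 0 := by
    intro w hw
    by_contra hw0
    exact hcon w hw0 hw
  obtain ⟨p', hp', hodd', hd'⟩ :=
    Pool.Agent.Helper273.Sup.exists_odd_irr_factor p.natDegree p rfl hodd
  exact Pool.Agent.Helper273.Sup.springer_poly (Matrix.of A) han _ p' hp' hodd' rfl f (hp p' hp' hd')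
    (hd'.trans hdvd)

end Q318.PSI.TaskSpringer
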