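import Pool.Agent.Q318.PSI.Assemble
import Pool.Agent.Q318.PSI.TaskCov
import Pool.Agent.Q318.PSI.TaskSpringer
import Pool.Agent.Q318.PSI.OddB
import Pool.Agent.Q318.PSI.TaskIndex
import Pool.Agent.Q318.PSI.TaskCoord
import Pool.Agent.Q318.PSI.TaskDescent
import Pool.Agent.Q318.PSI.TaskFrac
import Pool.Agent.Q318.PSI.TaskClear
import Pool.Agent.Q318.PSI.TaskHomog
import Pool.Agent.Q318.PSI.TaskDelta
import Pool.Agent.Q318.PSI.TaskGen1
import Pool.Agent.Q318.PSI.TaskGen2
import Pool.Agent.Q318.PSI.TaskGraded1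
import Pool.Agent.Q318.PSI.TaskGraded2
import Pool.Agent.Q318.PSI.TaskIndep
import Pool.Agent.Q318.PSI.TaskLin
import Pool.Agent.Q318.PSI.TaskNo

set_option autoImplicit false

namespace Q318.PSI

open MvPolynomial Equiv

theorem final : ∃ I : Ideal R, (∃ (f : R) (n : ℕ), f.IsHomogeneous n ∧ I = symIdeal f) ∧
      (∃ (f : R) (n : ℕ), f.IsHomogeneous n ∧ I ^ 2 = symIdeal f) ∧
      ∀ f : R, I = symIdeal f → ∀ (i j : Fin 7) (κ : ℂ), i ≠ j →
        rename (swap i j) f ≠ C κ * f :=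
  assemble
    (TaskCov.main TaskSpringer.main OddB.main TaskIndex.main TaskCoord.main TaskDescent.main
      TaskFrac.main TaskClear.main TaskHomog.main TaskDelta.main)
    TaskGen1.main TaskGen2.main
    (TaskNo.main TaskGraded1.main TaskGraded2.main TaskIndep.main TaskLin.main)

end Q318.PSI
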