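import Pool.Agent.Q318.PSI.Stmts

set_option autoImplicit false

namespace Q318.PSI.TaskGraded1

open MvPolynomial Equiv Q318.PSI

theorem coeff_of_low (m : ℕ) (x : R) (hx : ∀ j < m, homogeneousComponent j x = 0) (d : Fin 7 →₀ ℕ)
    (hd : d.degree < m) : coeff d x = 0 := by
  have h := congrArg (coeff d) (hx d.degree hd)
  rw [coeff_homogeneousComponent, if_pos rfl, coeff_zero] at h
  exact h

theorem low_mul (m : ℕ) (a x : R) (hx : ∀ j < m, homogeneousComponent j x = 0) :
    (∀ j < m, homogeneousComponent j (a * x) = 0) ∧
      homogeneousComponent m (a * x) = coeff 0 a • homogeneousComponent m x := by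
  classical
  constructor
  · intro j hj
    ext d
    rw [coeff_homogeneousComponent, coeff_zero]
    split_ifs with hd
    · rw [coeff_mul]
      refine Finset.sum_eq_zero fun p hp => ?_
      have h1 : p.1 + p.2 = d := Finset.HasAntidiagonal.mem_antidiagonal.1 hp
      have h2 : p.1.degree + p.2.degree = d.degree := by rw [← h1, map_add]
      rw [coeff_of_low m x hx p.2 (by omega), mul_zero]
    · rfl
  · ext d
    rw [coeff_homogeneousComponent, coeff_smul, coeff_homogeneousComponent]
    split_ifs with hd
    · rw [coeff_mul, Finset.sum_eq_single (0, d)]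
      · rfl
      · intro p hp hne
        have h1 : p.1 + p.2 = d := Finset.HasAntidiagonal.mem_antidiagonal.1 hp
        have h2 : p.1.degree + p.2.degree = d.degree := by rw [← h1, map_add]
        have h3 : p.1 ≠ 0 := by
          intro h0
          apply hne
          rw [h0, zero_add] at h1
          exact Prod.ext h0 h1
        have h4 : p.1.degree ≠ 0 := by
          intro h0
          exact h3 ((Finsupp.degree_eq_zero_iff _).1 h0)
        rw [coeff_of_low m x hx p.2 (by omega), mul_zero]
      · intro h
        exact absurd (Finset.HasAntidiagonal.mem_antidiagonal.2 (zero_add d)) h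
    · rw [smul_zero]

theorem main : TaskGraded1 := by
  intro m S hS p hp
  refine Submodule.span_induction (p := fun p _ => homogeneousComponent m p ∈ Submodule.span ℂ S ∧
    ∀ j < m, homogeneousComponent j p = 0) ?_ ?_ ?_ ?_ hp
  · intro s hs
    refine ⟨?_, fun j hj => ?_⟩
    · rw [homogeneousComponent_of_mem (hS s hs), if_pos rfl]
      exact Submodule.subset_span hs
    · rw [homogeneousComponent_of_mem (hS s hs), if_neg (by omega)]
  · refine ⟨?_, fun j _ => map_zero _⟩
    rw [map_zero]
    exact Submodule.zero_mem _
  · intro x y _ _ hx hy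
    refine ⟨?_, fun j hj => ?_⟩
    · rw [map_add]
      exact Submodule.add_mem _ hx.1 hy.1
    · rw [map_add, hx.2 j hj, hy.2 j hj, add_zero]
  · intro a x _ hx
    obtain ⟨h1, h2⟩ := low_mul m a x hx.2
    refine ⟨?_, ?_⟩
    · rw [smul_eq_mul, h2]
      exact Submodule.smul_mem _ _ hx.1
    · intro j hj
      rw [smul_eq_mul]
      exact h1 j hj

end Q318.PSI.TaskGraded1
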